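import Pool.Agent.E8helper19.LC.Stm2

/-!
# Project LC: the perturbation argument and the left half of the theorem
-/

set_option autoImplicit false
open MeasureTheory Filter Topology Set
open scoped ContDiff Real BoundedContinuousFunction

namespace Pool.Agent.E8helper19.LC

noncomputable section

theorem t_W (hA : S_WA) (hB : S_WB) (hC : S_WC) : S_W := by
  intro α k hk hα
  obtain ⟨w, hw⟩ := hA α k hk hα
  exact ⟨w, hw.meas, hw.int, hw.le, hB α k w hk hα hw, hC α k w hk hα hw⟩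

theorem pw_norm (k s : ℝ) : ‖pw k s‖ = 1 := by
  unfold pw
  rw [show Complex.I * k * s = ((k * s : ℝ) : ℂ) * Complex.I by push_cast; ring]
  exact Complex.norm_exp_ofReal_mul_I _

theorem pw_cont (k : ℝ) : Continuous (pw k) := by
  unfold pw
  fun_prop

theorem pw_bc (k : ℝ) : BC (pw k) := ⟨pw_cont k, 1, fun s => (pw_norm k s).le⟩

theorem g0_cont (k : ℝ) : Continuous (g0 k) := by
  unfold g0
  exact continuous_const.mul ((pw_cont k).comp continuous_abs)

theorem g0_norm {k : ℝ} (hk : 0 < k) (s : ℝ) : ‖g0 k s‖ = 1 / (2 * k) := by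
  unfold g0
  rw [norm_mul, pw_norm, norm_div, Complex.norm_I, mul_one, norm_mul, Complex.norm_real,
    Real.norm_of_nonneg hk.le]
  simp

theorem BC.add {f g : ℝ → ℂ} (hf : BC f) (hg : BC g) : BC (f + g) := by
  obtain ⟨C, hC⟩ := hf.bdd
  obtain ⟨D, hD⟩ := hg.bdd
  refine ⟨hf.cont.add hg.cont, C + D, fun s => (norm_add_le _ _).trans (add_le_add (hC s) (hD s))⟩

theorem BC.sub {f g : ℝ → ℂ} (hf : BC f) (hg : BC g) : BC (f - g) := by
  obtain ⟨C, hC⟩ := hf.bdd
  obtain ⟨D, hD⟩ := hg.bdd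
  refine ⟨hf.cont.sub hg.cont, C + D, fun s => (norm_sub_le _ _).trans (add_le_add (hC s) (hD s))⟩

/-- the bundled function -/
def toB (f : ℝ → ℂ) (h : BC f) : ℝ →ᵇ ℂ :=
  BoundedContinuousFunction.ofNormedAddCommGroup f h.cont h.bdd.choose h.bdd.choose_spec

theorem toB_apply (f : ℝ → ℂ) (h : BC f) (s : ℝ) : toB f h s = f s := rfl

theorem ofB (f : ℝ →ᵇ ℂ) : BC (f : ℝ → ℂ) := ⟨f.continuous, ‖f‖, fun s => f.norm_coe_le_norm s⟩

/-- Perturbation of an invertible operator `1 - T` on bounded continuous functions. -/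
theorem fix_abs (T R : (ℝ → ℂ) → ℝ → ℂ) (C₀ ε : ℝ) (hε : C₀ * ε ≤ 1 / 2)
    (hRBC : ∀ f, BC f → BC (R f))
    (hRsub : ∀ f g, BC f → BC g → ∀ s, R (f - g) s = R f s - R g s)
    (hRb : ∀ f M, BC f → (∀ s, ‖f s‖ ≤ M) → ∀ s, ‖R f s‖ ≤ ε * M)
    (hTsub : ∀ f g, BC f → BC g → ∀ s, T (f - g) s = T f s - T g s)
    (hTb : ∀ F f M, BC F → BC f → (∀ s, ‖F s‖ ≤ M) → (∀ s, f s = F s + T f s) →
      ∀ s, ‖f s‖ ≤ C₀ * M)
    (hTe : ∀ F, BC F → ∃ f, BC f ∧ ∀ s, f s = F s + T f s)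
    (F : ℝ → ℂ) (M : ℝ) (hF : BC F) (hM : ∀ s, ‖F s‖ ≤ M) :
    ∃ f, BC f ∧ (∀ s, f s = F s + T f s + R f s) ∧
      (∀ f', BC f' → (∀ s, f' s = F s + T f' s + R f' s) → f' = f) ∧
      ∀ s, ‖f s‖ ≤ 2 * C₀ * M := by
  choose S hSBC hS using hTe
  have key : ∀ f g : ℝ → ℂ, BC f → BC g → ∀ (f₁ g₁ : ℝ → ℂ), BC f₁ → BC g₁ →
      (∀ s, f₁ s = F s + R f s + T f₁ s) → (∀ s, g₁ s = F s + R g s + T g₁ s) →
      ∀ N, (∀ s, ‖f s - g s‖ ≤ N) → ∀ s, ‖f₁ s - g₁ s‖ ≤ 1 / 2 * N := by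
    intro f g hf hg f₁ g₁ hf₁ hg₁ h1 h2 N hN s
    have hN0 : 0 ≤ N := (norm_nonneg _).trans (hN 0)
    have hb := hTb (R (f - g)) (f₁ - g₁) (ε * N) (hRBC _ (hf.sub hg)) (hf₁.sub hg₁)
      (hRb (f - g) N (hf.sub hg) (fun s => by simpa using hN s))
      (fun s => by
        rw [hRsub f g hf hg, hTsub f₁ g₁ hf₁ hg₁]
        have e1 := h1 s
        have e2 := h2 s
        simp only [Pi.sub_apply]
        linear_combination e1 - e2) s
    calc ‖f₁ s - g₁ s‖ ≤ C₀ * (ε * N) := hb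
      _ = C₀ * ε * N := by ring
      _ ≤ 1 / 2 * N := mul_le_mul_of_nonneg_right hε hN0
  -- the contraction
  let Φ : (ℝ →ᵇ ℂ) → (ℝ →ᵇ ℂ) := fun f =>
    toB (S (F + R f) (hF.add (hRBC f (ofB f)))) (hSBC _ _)
  have hΦ : ∀ (f : ℝ →ᵇ ℂ) (s : ℝ), Φ f s = F s + R f s + T (Φ f) s := by
    intro f s
    exact hS (F + R f) (hF.add (hRBC f (ofB f))) s
  have hc : ContractingWith (1 / 2 : NNReal) Φ := by
    refine ⟨by
      rw [← NNReal.coe_lt_coe]
      norm_num, ?_⟩
    refine LipschitzWith.of_dist_le_mul fun f g => ?_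
    rw [BoundedContinuousFunction.dist_le (by positivity)]
    intro s
    rw [dist_eq_norm]
    have := key f g (ofB f) (ofB g) (Φ f) (Φ g) (ofB _) (ofB _) (hΦ f) (hΦ g) (dist f g)
      (fun s => by rw [← dist_eq_norm]; exact f.dist_coe_le_dist s) s
    simpa using this
  set f := ContractingWith.fixedPoint Φ hc with hfdef
  have hfix : Φ f = f := ContractingWith.fixedPoint_isFixedPt hc
  have hfe : ∀ s, f s = F s + R f s + T f s := by
    intro s
    have := hΦ f s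
    rw [hfix] at this
    exact this
  refine ⟨f, ofB f, fun s => by rw [hfe s]; ring, ?_, ?_⟩
  · intro f' hf' he
    have h1 := key f' f hf' (ofB f) f' f hf' (ofB f) (fun s => by rw [he s]; ring) hfe
      ‖toB f' hf' - f‖ (fun s => (toB f' hf' - f).norm_coe_le_norm s)
    have h2 : ‖toB f' hf' - f‖ ≤ 1 / 2 * ‖toB f' hf' - f‖ := by
      rw [BoundedContinuousFunction.norm_le (by positivity)]
      exact h1
    have h3 : ‖toB f' hf' - f‖ = 0 := le_antisymm (by linarith) (norm_nonneg _)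
    have h4 : toB f' hf' = f := by
      rw [norm_eq_zero] at h3
      exact sub_eq_zero.1 h3
    funext s
    rw [← h4]
    rfl
  · have hM0 : 0 ≤ M := (norm_nonneg _).trans (hM 0)
    have hb : ∀ s, ‖f s‖ ≤ C₀ * (M + ε * ‖f‖) := by
      refine hTb (F + R f) f _ (hF.add (hRBC f (ofB f))) (ofB f) ?_ (fun s => hfe s)
      intro s
      exact (norm_add_le _ _).trans (add_le_add (hM s)
        (hRb f ‖f‖ (ofB f) (fun s => f.norm_coe_le_norm s) s))
    have h0 : 0 ≤ C₀ * (M + ε * ‖f‖) := (norm_nonneg _).trans (hb 0)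
    have h2 : ‖f‖ ≤ C₀ * (M + ε * ‖f‖) := by
      rw [BoundedContinuousFunction.norm_le h0]
      exact hb
    have h3 : C₀ * ε * ‖f‖ ≤ 1 / 2 * ‖f‖ := mul_le_mul_of_nonneg_right hε (norm_nonneg _)
    have h4 : ‖f‖ ≤ 2 * C₀ * M := by nlinarith
    intro s
    exact (f.norm_coe_le_norm s).trans h4

/-! ## `K₀` -/

theorem int_K0 {V : ℝ → ℝ} (hV : Continuous V) (hc : HasCompactSupport V) {f : ℝ → ℂ}
    (hf : Continuous f) {m : ℝ → ℂ} (hm : Continuous m) :
    Integrable (fun t => m t * (V t * f t)) := by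
  refine Continuous.integrable_of_hasCompactSupport (by fun_prop) ?_
  refine HasCompactSupport.mul_left ?_
  refine HasCompactSupport.mul_right ?_
  exact hc.comp_left (g := fun x : ℝ => (x : ℂ)) (by simp)

theorem K0_sub {k : ℝ} {V : ℝ → ℝ} (hV : Continuous V) (hc : HasCompactSupport V) {f g : ℝ → ℂ}
    (hf : Continuous f) (hg : Continuous g) (s : ℝ) :
    K0 k V (f - g) s = K0 k V f s - K0 k V g s := by
  unfold K0
  have hm : Continuous fun t => g0 k (s - t) := (g0_cont k).comp (by fun_prop)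
  rw [← integral_sub (int_K0 hV hc hf hm) (int_K0 hV hc hg hm)]
  refine integral_congr_ae (Eventually.of_forall fun t => ?_)
  simp only [Pi.sub_apply]
  ring

theorem g0conv_bc {k : ℝ} (hk : 0 < k) {h : ℝ → ℂ} (hh : Integrable h) :
    BC (fun s => ∫ t, g0 k (s - t) * h t) := by
  refine ⟨?_, 1 / (2 * k) * ∫ t, ‖h t‖, fun s => ?_⟩
  · refine continuous_of_dominated (bound := fun t => 1 / (2 * k) * ‖h t‖) ?_ ?_ ?_ ?_
    · intro s
      exact ((g0_cont k).comp (by fun_prop : Continuous fun t : ℝ => s - t)).aestronglyMeasurable.mul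
        hh.aestronglyMeasurable
    · intro s
      refine Eventually.of_forall fun t => ?_
      rw [norm_mul, g0_norm hk]
    · exact hh.norm.const_mul _
    · refine Eventually.of_forall fun t => ?_
      exact ((g0_cont k).comp (by fun_prop : Continuous fun s : ℝ => s - t)).mul continuous_const
  · refine (norm_integral_le_integral_norm _).trans ?_
    rw [← integral_const_mul]
    refine le_of_eq (integral_congr_ae (Eventually.of_forall fun t => ?_))
    simp only [norm_mul, g0_norm hk]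

theorem K0_bc {k : ℝ} (hk : 0 < k) {V : ℝ → ℝ} (hV : Continuous V) (hc : HasCompactSupport V)
    {f : ℝ → ℂ} (hf : Continuous f) : BC (K0 k V f) := by
  have h := int_K0 hV hc hf (m := fun _ => 1) continuous_const
  simp only [one_mul] at h
  exact g0conv_bc hk h

/-! ## `K` is linear -/

theorem DD_sub {α k : ℝ} {γ : ℝ → P} (hD : ∀ s, Integrable (fun t => Dk α k γ s t))
    {f g : ℝ → ℂ} (hf : BC f) (hg : BC g) (s : ℝ) :
    DD α k γ (f - g) s = DD α k γ f s - DD α k γ g s := by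
  unfold DD
  have hi : ∀ u : ℝ → ℂ, BC u → Integrable (fun t => ((Dk α k γ s t : ℝ) : ℂ) * u t) := by
    intro u hu
    obtain ⟨C, hC⟩ := hu.bdd
    exact (hD s).ofReal.mul_bdd hu.cont.aestronglyMeasurable (Eventually.of_forall hC)
  rw [← integral_sub (hi f hf) (hi g hg)]
  refine integral_congr_ae (Eventually.of_forall fun t => ?_)
  simp only [Pi.sub_apply]
  ring

theorem KK_sub {α k : ℝ} (hk : 0 < k) {γ : ℝ → P} {w : ℝ → ℝ} (hw : Integrable w)
    (hD : ∀ s, Integrable (fun t => Dk α k γ s t))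
    (hDD : ∀ f, BC f → BC (DD α k γ f) ∧ Integrable (DD α k γ f))
    {f g : ℝ → ℂ} (hf : BC f) (hg : BC g) (s : ℝ) :
    KK α k γ w (f - g) s = KK α k γ w f s - KK α k γ w g s := by
  unfold KK
  have h1 : ∀ u : ℝ → ℂ, BC u → Integrable (fun t => g0 k (s - t) * DD α k γ u t) := by
    intro u hu
    have hm : Continuous fun t => g0 k (s - t) := (g0_cont k).comp (by fun_prop)
    exact (hDD u hu).2.bdd_mul hm.aestronglyMeasurable
      (Eventually.of_forall fun t => (g0_norm hk (s - t)).le)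
  have h2 : ∀ u : ℝ → ℂ, BC u → Integrable (fun t => (w (s - t) : ℂ) * DD α k γ u t) := by
    intro u hu
    obtain ⟨C, hC⟩ := (hDD u hu).1.bdd
    have hw' : Integrable (fun t => (w (s - t) : ℂ)) := (hw.comp_sub_left s).ofReal
    exact hw'.mul_bdd (hDD u hu).1.cont.aestronglyMeasurable (Eventually.of_forall hC)
  have e1 : (∫ t, g0 k (s - t) * DD α k γ (f - g) t) =
      (∫ t, g0 k (s - t) * DD α k γ f t) - ∫ t, g0 k (s - t) * DD α k γ g t := by
    rw [← integral_sub (h1 f hf) (h1 g hg)]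
    refine integral_congr_ae (Eventually.of_forall fun t => ?_)
    simp only [DD_sub hD hf hg]
    ring
  have e2 : (∫ t, (w (s - t) : ℂ) * DD α k γ (f - g) t) =
      (∫ t, (w (s - t) : ℂ) * DD α k γ f t) - ∫ t, (w (s - t) : ℂ) * DD α k γ g t := by
    rw [← integral_sub (h2 f hf) (h2 g hg)]
    refine integral_congr_ae (Eventually.of_forall fun t => ?_)
    simp only [DD_sub hD hf hg]
    ring
  rw [e1, e2, DD_sub hD hf hg]
  ring

/-! ## The left half -/

theorem t_LEFT (m : ℕ) (hm : m ≠ 0) (hT : S_TAY) (hW : S_W) (hD3 : S_D3) (hKEY : S_KEY)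
    (hCONV : SCONV m) (hK0 : S_K0) (h1D : S_1DA) (hA : S_REPA) (hB : S_REPB) (h2 : S_ASY2) :
    SLEFT m := by
  intro γ L k hγ hne hk
  obtain ⟨-, -, -, -, -, hkc, hk0⟩ := hT γ L hγ
  set V : ℝ → ℝ := fun s => kap2 γ s / 4 with hVdef
  have hV : Continuous V := hkc.div_const 4
  have hVc : HasCompactSupport V := by
    refine HasCompactSupport.intro (isCompact_Icc (a := -L) (b := L)) fun s hs => ?_
    have : L < |s| := by
      by_contra hcon
      exact hs (abs_le.1 (not_lt.1 hcon))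
    simp [hVdef, hk0 s this]
  have hV0 : ∀ s, 0 ≤ V s := fun s => by
    simp only [hVdef, kap2]
    positivity
  obtain ⟨C₀, hC₀, hb, he⟩ := hK0 k V hk hV hVc hV0
  obtain ⟨A₁, C₁, hA₁, hC₁, hconv⟩ := hCONV γ L k hγ hne hk
  -- the limit problem
  obtain ⟨f₀, hf₀BC, hf₀⟩ := he (pw k) (pw_bc k)
  set r₀ : ℂ := Complex.I / (2 * k) * ∫ s, pw k s * (V s * f₀ s) with hr₀
  set t₀ : ℂ := 1 + Complex.I / (2 * k) * ∫ s, pw (-k) s * (V s * f₀ s) with ht₀
  set IV : ℝ := ∫ s, V s with hIV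
  have hIV0 : 0 ≤ IV := integral_nonneg hV0
  have hVi : Integrable V := hV.integrable_of_hasCompactSupport hVc
  have hf₀b : ∀ s, ‖f₀ s‖ ≤ C₀ := fun s => by
    simpa using hb (pw k) f₀ 1 (pw_bc k) hf₀BC (fun s => (pw_norm k s).le) hf₀ s
  refine ⟨f₀, r₀, t₀, max A₁ (max 1 (2 * C₀ * C₁)),
    1 / (2 * k) * (2 * C₀ * C₁ + 2 * C₀ ^ 2 * C₁ * IV), ?_, ?_, ?_, ?_⟩
  · exact lt_of_lt_of_le one_pos ((le_max_left _ _).trans (le_max_right _ _))
  · exact (h1D k V f₀ r₀ t₀ hk hV hVc).2 ⟨hf₀BC, hf₀, rfl, rfl⟩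
  · intro f' r t h
    obtain ⟨hBC, hf', hr, ht⟩ := (h1D k V f' r t hk hV hVc).1 h
    have hz := hb (fun _ => 0) (f' - f₀) 0 ⟨continuous_const, 0, by simp⟩ (hBC.sub hf₀BC)
      (by simp) (fun s => by
        rw [K0_sub hV hVc hBC.cont hf₀BC.cont]
        have e1 := hf' s
        have e2 := hf₀ s
        simp only [Pi.sub_apply]
        linear_combination e1 - e2)
    have hff : f' = f₀ := by
      funext s
      have := hz s
      rw [mul_zero, norm_le_zero_iff] at this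
      exact sub_eq_zero.1 this
    subst hff
    exact ⟨rfl, hr, ht⟩
  · intro α hα
    have hαA : A₁ ≤ α := (le_max_left _ _).trans hα
    have hα1 : 1 ≤ α := ((le_max_left _ _).trans (le_max_right _ _)).trans hα
    have hαC : 2 * C₀ * C₁ ≤ α ^ m := (((le_max_right _ _).trans (le_max_right _ _)).trans
      hα).trans (le_self_pow₀ hα1 hm)
    have hα2 : 2 * k < α := hA₁.trans_le hαA
    have hα0 : 0 < α ^ m := by positivity
    obtain ⟨w, hw⟩ := hW α k hk hα2
    obtain ⟨-, -, -, hDi, -, hDD⟩ := hD3 γ L k α hγ hne hk hα2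
    have hDD' : ∀ f, BC f → BC (DD α k γ f) ∧ Integrable (DD α k γ f) :=
      fun f hf => ⟨(hDD f hf).1, (hDD f hf).2.1⟩
    -- the contraction
    obtain ⟨f, hfBC, hf, huniq, hfb⟩ := fix_abs (K0 k V) (fun f => KK α k γ w f - K0 k V f) C₀
      (C₁ / α ^ m) (by
        rw [mul_div_assoc', div_le_iff₀ hα0]
        linarith) (by
        intro f hf
        obtain ⟨M, hM⟩ := hf.bdd
        exact (hconv α w f M hαA hw hf hM).1.sub (K0_bc hk hV hVc hf.cont)) (by
        intro f g hf hg s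
        simp only [Pi.sub_apply]
        rw [KK_sub hk hw.int hDi hDD' hf hg, K0_sub hV hVc hf.cont hg.cont]
        ring) (by
        intro f M hf hM s
        exact (hconv α w f M hαA hw hf hM).2.1 s) (by
        intro f g hf hg s
        exact K0_sub hV hVc hf.cont hg.cont s) hb he (pw k) 1 (pw_bc k)
      (fun s => (pw_norm k s).le)
    rw [mul_one] at hfb
    have hf1 : ∀ s, f s = pw k s + KK α k γ w f s := by
      intro s
      have := hf s
      simp only [Pi.sub_apply] at this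
      linear_combination this
    have hu : ∀ f', BC f' → (∀ s, f' s = pw k s + KK α k γ w f' s) → f' = f := by
      intro f' hf' h
      refine huniq f' hf' fun s => ?_
      simp only [Pi.sub_apply]
      linear_combination h s
    -- distance to `f₀`
    have hdist : ∀ s, ‖(f - f₀) s‖ ≤ C₀ * (C₁ / α ^ m * (2 * C₀)) := by
      refine hb (KK α k γ w f - K0 k V f) (f - f₀) _
        ((hconv α w f _ hαA hw hfBC hfb).1.sub (K0_bc hk hV hVc hfBC.cont))
        (hfBC.sub hf₀BC) ((hconv α w f _ hαA hw hfBC hfb).2.1) (fun s => ?_)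
      rw [K0_sub hV hVc hfBC.cont hf₀BC.cont]
      have e1 := hf1 s
      have e2 := hf₀ s
      simp only [Pi.sub_apply]
      linear_combination e1 - e2
    set r : ℂ := Complex.I / (2 * k) * ((α ^ 2 / 2 : ℝ) : ℂ) * ∫ s, pw k s * DD α k γ f s with hr
    set t : ℂ := 1 + Complex.I / (2 * k) * ((α ^ 2 / 2 : ℝ) : ℂ) *
      ∫ s, pw (-k) s * DD α k γ f s with ht
    have hkey := (hKEY γ L k α w f r t hγ hne hk hα2 hw hfBC).2 ⟨hf1, hr, ht⟩
    obtain ⟨hAG, has1, has2⟩ := hkey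
    set ψ : P → ℂ := fun x => ∫ s, ((α * Gk (mu α k) ‖x - γ s‖ : ℝ) : ℂ) * f s with hψ
    -- amplitudes
    have hamp : ∀ p : ℝ, p = k ∨ p = -k →
        ‖((α ^ 2 / 2 : ℝ) : ℂ) * (∫ s, pw p s * DD α k γ f s) -
          ∫ s, pw p s * (V s * f₀ s)‖ ≤ (2 * C₀ * C₁ + 2 * C₀ ^ 2 * C₁ * IV) / α ^ m := by
      intro p hp
      have e1 := (hconv α w f _ hαA hw hfBC hfb).2.2 p hp
      have e2 : ‖(∫ s, pw p s * (V s * f s)) - ∫ s, pw p s * (V s * f₀ s)‖ ≤
          IV * (C₀ * (C₁ / α ^ m * (2 * C₀))) := by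
        rw [← integral_sub (int_K0 hV hVc hfBC.cont (pw_cont p))
          (int_K0 hV hVc hf₀BC.cont (pw_cont p)), hIV, ← integral_mul_const]
        refine norm_integral_le_of_norm_le (hVi.mul_const _) (Eventually.of_forall fun s => ?_)
        rw [← mul_sub, ← mul_sub, norm_mul, norm_mul, pw_norm, one_mul, Complex.norm_real,
          Real.norm_of_nonneg (hV0 s)]
        exact mul_le_mul_of_nonneg_left (hdist s) (hV0 s)
      calc ‖((α ^ 2 / 2 : ℝ) : ℂ) * (∫ s, pw p s * DD α k γ f s) -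
            ∫ s, pw p s * (V s * f₀ s)‖
          = ‖(((α ^ 2 / 2 : ℝ) : ℂ) * (∫ s, pw p s * DD α k γ f s) -
              ∫ s, pw p s * ((V s : ℂ) * f s)) +
              ((∫ s, pw p s * (V s * f s)) - ∫ s, pw p s * (V s * f₀ s))‖ := by
            congr 1
            ring
        _ ≤ C₁ / α ^ m * (2 * C₀) + IV * (C₀ * (C₁ / α ^ m * (2 * C₀))) :=
            (norm_add_le _ _).trans (add_le_add e1 e2)
        _ = (2 * C₀ * C₁ + 2 * C₀ ^ 2 * C₁ * IV) / α ^ m := by
            field_simp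
    have hI2 : ‖Complex.I / (2 * k)‖ = 1 / (2 * k) := by
      rw [norm_div, Complex.norm_I, norm_mul, Complex.norm_real, Real.norm_of_nonneg hk.le]
      simp
    have hrr : ‖r - r₀‖ ≤ 1 / (2 * k) * (2 * C₀ * C₁ + 2 * C₀ ^ 2 * C₁ * IV) / α ^ m := by
      have : r - r₀ = Complex.I / (2 * k) * (((α ^ 2 / 2 : ℝ) : ℂ) *
          (∫ s, pw k s * DD α k γ f s) - ∫ s, pw k s * (V s * f₀ s)) := by
        rw [hr, hr₀]
        ring
      rw [this, norm_mul, hI2, mul_div_assoc]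
      exact mul_le_mul_of_nonneg_left (hamp k (Or.inl rfl)) (by positivity)
    have htt : ‖t - t₀‖ ≤ 1 / (2 * k) * (2 * C₀ * C₁ + 2 * C₀ ^ 2 * C₁ * IV) / α ^ m := by
      have : t - t₀ = Complex.I / (2 * k) * (((α ^ 2 / 2 : ℝ) : ℂ) *
          (∫ s, pw (-k) s * DD α k γ f s) - ∫ s, pw (-k) s * (V s * f₀ s)) := by
        rw [ht, ht₀]
        ring
      rw [this, norm_mul, hI2, mul_div_assoc]
      exact mul_le_mul_of_nonneg_left (hamp (-k) (Or.inr rfl)) (by positivity)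
    refine ⟨ψ, r, t, ⟨hB γ L k α f hγ hne hk hα2 hfBC hAG,
      (h2 γ L k α f 1 r hγ hne hk hα2 hfBC).1 has1,
      (h2 γ L k α f t 0 hγ hne hk hα2 hfBC).2 has2⟩, ?_, hrr, htt⟩
    rintro ψ' r' t' ⟨hG, ha1, ha2⟩
    have hrep := hA γ L k α ψ' hγ hne hk hα2 hG
    have hBC' : BC (fun s => ψ' (γ s)) := by
      obtain ⟨C, hC⟩ := hG.bdd
      exact ⟨hG.cont.comp hγ.smooth.continuous, C, fun s => hC _⟩
    have hAG' : ∀ s, AG α k γ (fun s => ψ' (γ s)) s = ψ' (γ s) := fun s => (hrep (γ s)).symm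
    have hu0 : ∀ (F : Filter ℝ) (a b : ℂ), Asy α k γ ψ' F a b →
        Asy1 k (fun s => ψ' (γ s)) F a b := by
      intro F a b h
      have := h 0
      unfold Asy1
      simpa using this
    obtain ⟨g1, g2, g3⟩ := (hKEY γ L k α w (fun s => ψ' (γ s)) r' t' hγ hne hk hα2 hw hBC').1
      ⟨hAG', hu0 _ _ _ ha1, hu0 _ _ _ ha2⟩
    have hff := hu _ hBC' g1
    refine ⟨?_, ?_, ?_⟩
    · funext x
      rw [hrep x, hψ]
      refine integral_congr_ae (Eventually.of_forall fun s => ?_)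
      simp only
      rw [← congrFun hff s]
    · rw [g2, hff]
    · rw [g3, hff]

end

end Pool.Agent.E8helper19.LC
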