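import Pool.Agent.E8helper19.LC.Left

/-!
# Project LC: both halves of the theorem, and leads in the same direction
-/

set_option autoImplicit false
open MeasureTheory Filter Topology Set
open scoped ContDiff Real

namespace Pool.Agent.E8helper19.LC

noncomputable section

/-! ## The one-dimensional scattering matrix -/

theorem left1 (hK0 : S_K0) (h1D : S_1DA) (k : ℝ) (V : ℝ → ℝ) (hk : 0 < k) (hV : Continuous V)
    (hVc : HasCompactSupport V) (hV0 : ∀ s, 0 ≤ V s) :
    ∃ (f : ℝ → ℂ) (r t : ℂ), LeftIn1 k V f r t ∧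
      ∀ f' r' t', LeftIn1 k V f' r' t' → f' = f ∧ r' = r ∧ t' = t := by
  obtain ⟨C₀, hC₀, hb, he⟩ := hK0 k V hk hV hVc hV0
  obtain ⟨f₀, hf₀BC, hf₀⟩ := he (pw k) (pw_bc k)
  refine ⟨f₀, _, _, (h1D k V f₀ _ _ hk hV hVc).2 ⟨hf₀BC, hf₀, rfl, rfl⟩, ?_⟩
  intro f' r t h
  obtain ⟨hBC, hf', hr, ht⟩ := (h1D k V f' r t hk hV hVc).1 h
  have hz := hb (fun _ => 0) (f' - f₀) 0 ⟨continuous_const, 0, by simp⟩ (hBC.sub hf₀BC)
    (by simp) (fun s => by
      rw [K0_sub hV hVc hBC.cont hf₀BC.cont]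
      have e1 := hf' s
      have e2 := hf₀ s
      simp only [Pi.sub_apply]
      linear_combination e1 - e2)
  have hff : f' = f₀ := by
    funext s
    have := hz s
    rw [mul_zero, norm_le_zero_iff] at this
    exact sub_eq_zero.1 this
  subst hff
  exact ⟨rfl, hr, ht⟩

/-! ## Leads in the same direction -/

theorem pw_add (k a b : ℝ) : pw k (a + b) = pw k a * pw k b := by
  unfold pw
  rw [← Complex.exp_add]
  congr 1
  push_cast
  ring

theorem pw_neg_mul (k a : ℝ) : pw k a * pw (-k) a = 1 := by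
  unfold pw
  rw [← Complex.exp_add]
  rw [← Complex.exp_zero]
  congr 1
  push_cast
  ring

/-- `A e^(iks) + B e^(-iks)` does not tend to zero at `+∞` unless `B = 0` -/
theorem coef_zero {k : ℝ} (hk : 0 < k) {A B : ℂ}
    (h : Tendsto (fun s => A * pw k s + B * pw (-k) s) atTop (𝓝 0)) : B = 0 := by
  -- multiply by `e^(iks)`
  have h1 : Tendsto (fun s => A * pw (2 * k) s + B) atTop (𝓝 0) := by
    have hn : Tendsto (fun s => ‖A * pw (2 * k) s + B‖) atTop (𝓝 0) := by
      have h' := tendsto_zero_iff_norm_tendsto_zero.1 h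
      refine h'.congr fun s => ?_
      have e : A * pw (2 * k) s + B = (A * pw k s + B * pw (-k) s) * pw k s := by
        have e1 : pw (2 * k) s = pw k s * pw k s := by
          unfold pw
          rw [← Complex.exp_add]
          congr 1
          push_cast
          ring
        rw [e1]
        linear_combination (-B) * pw_neg_mul k s
      rw [e, norm_mul, pw_norm, mul_one]
    exact tendsto_zero_iff_norm_tendsto_zero.2 hn
  have hs : ∀ c : ℝ, Tendsto (fun n : ℕ => (n : ℝ) * (π / k) + c) atTop atTop := by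
    intro c
    exact tendsto_atTop_add_const_right _ _
      (tendsto_natCast_atTop_atTop.atTop_mul_const (by positivity))
  have e0 : ∀ n : ℕ, pw (2 * k) ((n : ℝ) * (π / k) + 0) = 1 := by
    intro n
    unfold pw
    rw [Complex.exp_eq_one_iff]
    refine ⟨n, ?_⟩
    have : (k : ℂ) ≠ 0 := by exact_mod_cast hk.ne'
    push_cast
    field_simp
    ring
  have e1 : ∀ n : ℕ, pw (2 * k) ((n : ℝ) * (π / k) + π / (2 * k)) = -1 := by
    intro n
    have := e0 n
    rw [add_zero] at this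
    rw [pw_add, this, one_mul]
    unfold pw
    have hk' : (k : ℂ) ≠ 0 := by exact_mod_cast hk.ne'
    rw [← Complex.exp_pi_mul_I]
    congr 1
    push_cast
    field_simp
  have l0 := h1.comp (hs 0)
  have l1 := h1.comp (hs (π / (2 * k)))
  have l0' : Tendsto (fun _ : ℕ => A + B) atTop (𝓝 0) := by
    refine l0.congr fun n => ?_
    simp only [Function.comp]
    rw [e0 n, mul_one]
  have l1' : Tendsto (fun _ : ℕ => -A + B) atTop (𝓝 0) := by
    refine l1.congr fun n => ?_
    simp only [Function.comp]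
    rw [e1 n]
    ring
  have q0 := tendsto_nhds_unique l0' tendsto_const_nhds
  have q1 := tendsto_nhds_unique l1' tendsto_const_nhds
  linear_combination (-1 / 2 : ℂ) * q0 + (-1 / 2 : ℂ) * q1

theorem rot_decomp (e v : P) (he : ‖e‖ = 1) : ∃ x d : ℝ, v = x • e + d • rot e := by
  have h1 : e 0 ^ 2 + e 1 ^ 2 = 1 := by
    have := EuclideanSpace.norm_sq_eq e
    rw [he, Fin.sum_univ_two, Real.norm_eq_abs, Real.norm_eq_abs, sq_abs, sq_abs] at this
    linarith
  refine ⟨v 0 * e 0 + v 1 * e 1, v 1 * e 0 - v 0 * e 1, ?_⟩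
  ext i
  fin_cases i
  · simp [rot]
    linear_combination (-(v 0)) * h1
  · simp [rot]
    linear_combination (-(v 1)) * h1

theorem rot_neg (v : P) : rot (-v) = -rot v := by
  ext i
  fin_cases i <;> simp [rot]

/-- the derivative in the right lead -/
theorem deriv_right {γ : ℝ → P} {L : ℝ} (h : Crv γ L) {s : ℝ} (hs : L < s) :
    deriv γ s = deriv γ L := by
  have : γ =ᶠ[𝓝 s] fun s => γ L + (s - L) • deriv γ L := by
    filter_upwards [Ioi_mem_nhds hs] with x hx
    exact h.right x (le_of_lt hx)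
  rw [this.deriv_eq]
  have : HasDerivAt (fun s : ℝ => γ L + (s - L) • deriv γ L) ((1 : ℝ) • deriv γ L) s :=
    (((hasDerivAt_id s).sub_const L).smul_const (deriv γ L)).const_add (γ L)
  rw [this.deriv, one_smul]

theorem deriv_left {γ : ℝ → P} {L : ℝ} (h : Crv γ L) {s : ℝ} (hs : s < -L) :
    deriv γ s = deriv γ (-L) := by
  have : γ =ᶠ[𝓝 s] fun s => γ (-L) + (s + L) • deriv γ (-L) := by
    filter_upwards [Iio_mem_nhds hs] with x hx
    exact h.left x (le_of_lt hx)
  rw [this.deriv_eq]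
  have : HasDerivAt (fun s : ℝ => γ (-L) + (s + L) • deriv γ (-L)) ((1 : ℝ) • deriv γ (-L)) s :=
    (((hasDerivAt_id s).add_const L).smul_const (deriv γ (-L))).const_add (γ (-L))
  rw [this.deriv, one_smul]

/-- if both leads go in the same direction, the conditions on the two leads contradict each
other -/
theorem no_left {γ : ℝ → P} {L k α : ℝ} (h : Crv γ L) (he : deriv γ L = -deriv γ (-L))
    (hk : 0 < k) (ψ : P → ℂ) (r t : ℂ) (h1 : Asy α k γ ψ atBot 1 r) (h2 : Asy α k γ ψ atTop t 0) :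
    False := by
  obtain ⟨x, d, hxd⟩ := rot_decomp (deriv γ L) (γ (-L) - γ L) (h.unit L)
  have h1' := (h1 0).comp tendsto_neg_atTop_atBot
  have h2' := (h2 d).comp (tendsto_atTop_add_const_right atTop x tendsto_id)
  have key : ∀ᶠ s in atTop, γ (-s) + (0 : ℝ) • rot (deriv γ (-s)) =
      γ (s + x) + d • rot (deriv γ (s + x)) := by
    filter_upwards [eventually_ge_atTop L, eventually_gt_atTop (L - x)] with s hs1 hs2
    rw [zero_smul, add_zero, h.left (-s) (by linarith), h.right (s + x) (by linarith),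
      deriv_right h (by linarith : L < s + x)]
    have e1 : deriv γ (-L) = -deriv γ L := by rw [he, neg_neg]
    rw [e1]
    have e2 : γ (-L) = γ L + (x • deriv γ L + d • rot (deriv γ L)) := by
      rw [← hxd]
      abel
    rw [e2]
    module
  have h3 := h1'.sub h2'
  rw [sub_zero] at h3
  have h4 : Tendsto (fun s => (t * (Real.exp (-(α * |d| / 2)) : ℂ) * pw k x - r) * pw k s +
      (-1) * pw (-k) s) atTop (𝓝 0) := by
    refine h3.congr' ?_
    filter_upwards [key] with s hs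
    simp only [Function.comp, id]
    rw [hs]
    have e1 : pw k (-s) = pw (-k) s := by
      unfold pw
      congr 1
      push_cast
      ring
    have e2 : pw (-k) (-s) = pw k s := by
      unfold pw
      congr 1
      push_cast
      ring
    rw [e1, e2, pw_add]
    simp
    ring
  have := coef_zero hk h4
  norm_num at this

/-- the same for waves coming in from the right -/
theorem no_right {γ : ℝ → P} {L k α : ℝ} (h : Crv γ L) (he : deriv γ L = -deriv γ (-L))
    (hk : 0 < k) (ψ : P → ℂ) (r t : ℂ) (h1 : Asy α k γ ψ atTop r 1) (h2 : Asy α k γ ψ atBot 0 t) :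
    False := by
  obtain ⟨x, d, hxd⟩ := rot_decomp (deriv γ L) (γ (-L) - γ L) (h.unit L)
  have h1' := (h1 d).comp (tendsto_atTop_add_const_right atTop x tendsto_id)
  have h2' := (h2 0).comp tendsto_neg_atTop_atBot
  have key : ∀ᶠ s in atTop, γ (-s) + (0 : ℝ) • rot (deriv γ (-s)) =
      γ (s + x) + d • rot (deriv γ (s + x)) := by
    filter_upwards [eventually_ge_atTop L, eventually_gt_atTop (L - x)] with s hs1 hs2
    rw [zero_smul, add_zero, h.left (-s) (by linarith), h.right (s + x) (by linarith),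
      deriv_right h (by linarith : L < s + x)]
    have e1 : deriv γ (-L) = -deriv γ L := by rw [he, neg_neg]
    rw [e1]
    have e2 : γ (-L) = γ L + (x • deriv γ L + d • rot (deriv γ L)) := by
      rw [← hxd]
      abel
    rw [e2]
    module
  have h3 := h2'.sub h1'
  rw [sub_zero] at h3
  have h4 : Tendsto (fun s => (r * (Real.exp (-(α * |d| / 2)) : ℂ) * pw k x - t) * pw k s +
      ((Real.exp (-(α * |d| / 2)) : ℂ) * pw (-k) x) * pw (-k) s) atTop (𝓝 0) := by
    refine h3.congr' ?_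
    filter_upwards [key] with s hs
    simp only [Function.comp, id]
    rw [hs]
    have e1 : pw k (-s) = pw (-k) s := by
      unfold pw
      congr 1
      push_cast
      ring
    have e2 : pw (-k) (-s) = pw k s := by
      unfold pw
      congr 1
      push_cast
      ring
    rw [e1, e2, pw_add, pw_add]
    simp
    ring
  have := coef_zero hk h4
  rw [mul_eq_zero] at this
  rcases this with h5 | h5
  · exact absurd h5 (by exact_mod_cast (Real.exp_pos _).ne')
  · have := pw_norm (-k) x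
    rw [h5, norm_zero] at this
    norm_num at this

/-! ## The main theorem -/

theorem t_MAIN (m : ℕ) (hT : S_TAY) (hK0 : S_K0) (h1D : S_1DA) (hR : S_REV) (hL : SLEFT m)
    (γ : ℝ → P) (L k : ℝ) (hγ : Crv γ L) (hk : 0 < k) :
    ∃ r₀ t₀ r₀' t₀' : ℂ,
      ((∃ f, LeftIn1 k (fun s => kap2 γ s / 4) f r₀ t₀) ∧
        ∀ f r t, LeftIn1 k (fun s => kap2 γ s / 4) f r t → r = r₀ ∧ t = t₀) ∧
      ((∃ f, RightIn1 k (fun s => kap2 γ s / 4) f r₀' t₀') ∧
        ∀ f r t, RightIn1 k (fun s => kap2 γ s / 4) f r t → r = r₀' ∧ t = t₀') ∧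
      (deriv γ L ≠ -deriv γ (-L) → ∃ A C : ℝ, 0 < A ∧ ∀ α, A ≤ α →
        (∃ (ψ : P → ℂ) (r t : ℂ), LeftIn α k γ ψ r t ∧
          (∀ ψ' r' t', LeftIn α k γ ψ' r' t' → ψ' = ψ ∧ r' = r ∧ t' = t) ∧
          ‖r - r₀‖ ≤ C / α ^ m ∧ ‖t - t₀‖ ≤ C / α ^ m) ∧
        ∃ (ψ : P → ℂ) (r t : ℂ), RightIn α k γ ψ r t ∧
          (∀ ψ' r' t', RightIn α k γ ψ' r' t' → ψ' = ψ ∧ r' = r ∧ t' = t) ∧
          ‖r - r₀'‖ ≤ C / α ^ m ∧ ‖t - t₀'‖ ≤ C / α ^ m) ∧
      (deriv γ L = -deriv γ (-L) → ∀ (α : ℝ) (ψ : P → ℂ) (r t : ℂ),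
        ¬ LeftIn α k γ ψ r t ∧ ¬ RightIn α k γ ψ r t) := by
  obtain ⟨-, -, -, -, -, hkc, hk0⟩ := hT γ L hγ
  obtain ⟨hR1, hR2, hR3⟩ := hR
  set V : ℝ → ℝ := fun s => kap2 γ s / 4 with hVdef
  have hV : Continuous V := hkc.div_const 4
  have hVc : HasCompactSupport V := by
    refine HasCompactSupport.intro (isCompact_Icc (a := -L) (b := L)) fun s hs => ?_
    have : L < |s| := by
      by_contra hcon
      exact hs (abs_le.1 (not_lt.1 hcon))
    simp [hVdef, hk0 s this]
  have hV0 : ∀ s, 0 ≤ V s := fun s => by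
    simp only [hVdef, kap2]
    positivity
  have hVc' : HasCompactSupport (fun s => V (-s)) := hVc.comp_homeomorph (Homeomorph.neg ℝ)
  obtain ⟨f₀, r₀, t₀, a1, a2⟩ := left1 hK0 h1D k V hk hV hVc hV0
  obtain ⟨g₀, r₀', t₀', b1, b2⟩ := left1 hK0 h1D k (fun s => V (-s)) hk
    (hV.comp continuous_neg) hVc' (fun s => hV0 _)
  refine ⟨r₀, t₀, r₀', t₀', ⟨⟨f₀, a1⟩, fun f r t h => (a2 f r t h).2⟩,
    ⟨⟨fun s => g₀ (-s), ?_⟩, fun f r t h => ?_⟩, ?_, ?_⟩
  · rw [hR3]
    simpa using b1
  · exact (b2 _ _ _ ((hR3 k V f r t).1 h)).2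
  · intro hne
    obtain ⟨f, r, t, A, C, hA, c1, c2, c3⟩ := hL γ L k hγ hne hk
    obtain ⟨hγ', hne', hkap⟩ := hR1 γ L hγ hne
    obtain ⟨f', r', t', A', C', hA', d1, d2, d3⟩ := hL _ L k hγ' hne' hk
    obtain ⟨-, rfl, rfl⟩ := a2 _ _ _ c1
    have hVV : (fun s => kap2 (fun s => γ (-s)) s / 4) = fun s => V (-s) := by
      funext s
      rw [hkap s]
    rw [hVV] at d1
    obtain ⟨-, rfl, rfl⟩ := b2 _ _ _ d1
    refine ⟨max A A', max C C', lt_max_of_lt_left hA, fun α hα => ⟨?_, ?_⟩⟩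
    · obtain ⟨ψ, r1, t1, e1, e2, e3, e4⟩ := c3 α ((le_max_left _ _).trans hα)
      have hα0 : 0 < α ^ m := pow_pos (hA.trans_le ((le_max_left _ _).trans hα)) m
      refine ⟨ψ, r1, t1, e1, e2, e3.trans ?_, e4.trans ?_⟩ <;>
        exact div_le_div_of_nonneg_right (le_max_left _ _) hα0.le
    · obtain ⟨ψ, r1, t1, e1, e2, e3, e4⟩ := d3 α ((le_max_right _ _).trans hα)
      have hα0 : 0 < α ^ m := pow_pos (hA.trans_le ((le_max_left _ _).trans hα)) m
      have hdiff : Differentiable ℝ γ := hγ.smooth.differentiable (by norm_num)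
      refine ⟨ψ, r1, t1, (hR2 α k γ ψ r1 t1 hdiff).2 e1,
        fun ψ' r' t' h => e2 ψ' r' t' ((hR2 α k γ ψ' r' t' hdiff).1 h), e3.trans ?_,
        e4.trans ?_⟩ <;>
        exact div_le_div_of_nonneg_right (le_max_right _ _) hα0.le
  · intro he α ψ r t
    refine ⟨fun h => no_left hγ he hk ψ r t h.2.1 h.2.2,
      fun h => no_right hγ he hk ψ r t h.2.1 h.2.2⟩

end

end Pool.Agent.E8helper19.LC
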