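import Pool.Agent.E8helper19.LC.Stm2

/-!
# Project LC: statements for the optimality of the rate `α⁻²` (MP_862eda_mp)

Nothing is proved here.
-/

set_option autoImplicit false
open MeasureTheory Filter Topology Set
open scoped ContDiff Real

namespace Pool.Agent.E8helper19.LC

noncomputable section

/-- LC31. Bounds for `D` with constants independent of `k`. -/
def S_U1 : Prop :=
  ∀ (γ : ℝ → P) (L : ℝ), Crv γ L → deriv γ L ≠ -deriv γ (-L) →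
    ∃ C : ℝ, 0 < C ∧ ∀ k : ℝ, 0 < k → ∃ A : ℝ, 2 * k < A ∧ ∀ α, A ≤ α →
      (∀ s, ∫ t, Dk α k γ s t ≤ C / α ^ 2) ∧
      (∫ z : ℝ × ℝ, Dk α k γ z.1 z.2 ≤ C / α ^ 2) ∧
      Integrable (fun z : ℝ × ℝ => Dk α k γ z.1 z.2 * |z.1 - z.2| ^ 2) ∧
      (∫ z : ℝ × ℝ, Dk α k γ z.1 z.2 * |z.1 - z.2| ^ 2 ≤ C / α ^ 4) ∧
      Integrable (fun z : ℝ × ℝ => Dk α k γ z.1 z.2 * |z.1 - z.2| ^ 3) ∧
      (∫ z : ℝ × ℝ, Dk α k γ z.1 z.2 * |z.1 - z.2| ^ 3 ≤ C / α ^ 5)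

/-- LC32. The signed first moment, constant independent of `k`. -/
def S_U2 : Prop :=
  ∀ (γ : ℝ → P) (L : ℝ), Crv γ L → deriv γ L ≠ -deriv γ (-L) →
    ∃ C : ℝ, 0 < C ∧ ∀ k : ℝ, 0 < k → ∃ A : ℝ, 2 * k < A ∧ ∀ α, A ≤ α →
      ∫ s, |∫ t, (t - s) * Dk α k γ t s| ≤ C / α ^ 4

/-- LC33. The limit of `D`, constant independent of `k`. -/
def S_U3 : Prop :=
  ∀ (γ : ℝ → P) (L : ℝ), Crv γ L → deriv γ L ≠ -deriv γ (-L) →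
    ∃ C : ℝ, 0 < C ∧ ∀ k : ℝ, 0 < k → ∃ A : ℝ, 2 * k < A ∧ ∀ α, A ≤ α →
      ∫ s, |α ^ 2 / 2 * (∫ t, Dk α k γ t s) - α ^ 3 / (32 * mu α k ^ 3) * kap2 γ s| ≤ C / α ^ 2

/-- LC34. Moments of `-G'`. -/
def S_G5 : Prop :=
  ∃ H Q : ℝ → ℝ, Measurable H ∧ Measurable Q ∧
    (∀ x, 0 < x → 0 ≤ H x ∧ 0 ≤ Q x) ∧
    (∀ x y, 0 < x → x ≤ y → H y ≤ H x ∧ Q y ≤ Q x) ∧
    (∀ x y, 0 < x → x ≤ y → Gk 1 x - Gk 1 y ≤ (y - x) * H x) ∧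
    (∀ x y, 0 < x → x ≤ y → |Gk 1 x - Gk 1 y - (y - x) * H y| ≤ (y - x) ^ 2 * Q x) ∧
    (∀ j : ℕ, 1 ≤ j → IntegrableOn (fun x => x ^ j * H x) (Ioi 0)) ∧
    (∀ j : ℕ, 2 ≤ j → IntegrableOn (fun x => x ^ j * Q x) (Ioi 0)) ∧
    (∫ x in Ioi (0 : ℝ), x ^ 3 * H x = 3 / 4) ∧ ∫ x in Ioi (0 : ℝ), x ^ 5 * H x = 45 / 4

/-- LC35. The second moment of `D`. -/
def S_SEC : Prop :=
  ∀ (γ : ℝ → P) (L k : ℝ), Crv γ L → deriv γ L ≠ -deriv γ (-L) → 0 < k →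
    Tendsto (fun α : ℝ => α ^ 4 * ∫ z : ℝ × ℝ, Dk α k γ z.1 z.2 * |z.1 - z.2| ^ 2) atTop
      (𝓝 (30 * ∫ s, kap2 γ s))

/-- LC36. `(α²/2) D - κ²/4` on smooth functions. -/
def S_OP : Prop :=
  ∀ (γ : ℝ → P) (L : ℝ), Crv γ L → deriv γ L ≠ -deriv γ (-L) →
    ∃ C : ℝ, 0 < C ∧ ∀ k : ℝ, 0 < k → ∃ A : ℝ, 2 * k < A ∧ ∀ α, A ≤ α →
      ∀ (g : ℝ → ℂ) (M0 M1 M2 : ℝ), ContDiff ℝ 2 g → (∀ s, ‖g s‖ ≤ M0) →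
        (∀ s, ‖deriv g s‖ ≤ M1) → (∀ s, ‖deriv (deriv g) s‖ ≤ M2) →
        Integrable (fun s => ((α ^ 2 / 2 : ℝ) : ℂ) * DD α k γ g s -
          ((kap2 γ s / 4 : ℝ) : ℂ) * g s) ∧
        ∫ s, ‖((α ^ 2 / 2 : ℝ) : ℂ) * DD α k γ g s - ((kap2 γ s / 4 : ℝ) : ℂ) * g s‖ ≤
          C * ((1 + k ^ 2) * M0 + M1 + M2) / α ^ 2

/-- LC37. `(α²/2) D - κ²/4` on plane waves. -/
def S_PW : Prop :=
  ∀ (γ : ℝ → P) (L : ℝ), Crv γ L → deriv γ L ≠ -deriv γ (-L) →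
    ∃ C : ℝ, 0 < C ∧ ∀ k : ℝ, 0 < k → ∃ A : ℝ, 2 * k < A ∧ ∀ α, A ≤ α →
      ‖((α ^ 2 : ℝ) : ℂ) * (∫ s, pw (-k) s * (((α ^ 2 / 2 : ℝ) : ℂ) * DD α k γ (pw k) s -
        ((kap2 γ s / 4 : ℝ) : ℂ) * pw k s)) + ((6 * k ^ 2 * ∫ s, kap2 γ s : ℝ) : ℂ)‖ ≤ C

/-- LC38. One-dimensional scattering solutions at high energy. -/
def S_LK : Prop :=
  ∀ V : ℝ → ℝ, Continuous V → HasCompactSupport V → (∀ s, 0 ≤ V s) →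
    ∃ C k₀ : ℝ, 0 < C ∧ 0 < k₀ ∧ ∀ (k : ℝ) (f : ℝ → ℂ) (r t : ℂ), k₀ ≤ k →
      (LeftIn1 k V f r t ∨ RightIn1 k V f r t) →
        ContDiff ℝ 2 f ∧ (∀ s, ‖f s‖ ≤ 2) ∧ (∀ s, ‖deriv f s‖ ≤ C * k) ∧
        (∀ s, ‖deriv (deriv f) s‖ ≤ C * k ^ 2) ∧
        (LeftIn1 k V f r t → (∀ s, f s = pw k s + K0 k V f s) ∧ ∀ s, ‖f s - pw k s‖ ≤ C / k) ∧
        (RightIn1 k V f r t →
          (∀ s, f s = pw (-k) s + K0 k V f s) ∧ ∀ s, ‖f s - pw (-k) s‖ ≤ C / k)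

/-- LC39. Reciprocity. -/
def S_REC : Prop :=
  ∀ (k : ℝ) (V : ℝ → ℝ) (f g h : ℝ → ℂ), 0 < k → Continuous V → HasCompactSupport V →
    BC f → BC g → Integrable h → (∀ s, f s = pw k s + K0 k V f s) →
    (∀ s, g s = pw (-k) s + K0 k V g s) →
    ∫ s, pw (-k) s * (h s - V s * f s) =
      ∫ s, g s * (h s - V s * (pw k s + ∫ t, g0 k (s - t) * h t))

/-- LC40. The rate `α⁻²` is optimal at high energy. -/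
def S_SHARP : Prop :=
  ∀ (γ : ℝ → P) (L : ℝ), Crv γ L → deriv γ L ≠ -deriv γ (-L) → (∃ s, kap2 γ s ≠ 0) →
    ∃ k₀ c : ℝ, 0 < k₀ ∧ 0 < c ∧ ∀ k, k₀ ≤ k → ∃ A : ℝ, ∀ (α : ℝ) (ψ : P → ℂ) (r t : ℂ)
      (f : ℝ → ℂ) (r₀ t₀ : ℂ), A ≤ α → LeftIn α k γ ψ r t →
        LeftIn1 k (fun s => kap2 γ s / 4) f r₀ t₀ → c * k / α ^ 2 ≤ ‖t - t₀‖

end

end Pool.Agent.E8helper19.LC
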