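import Pool.Agent.E8helper19.LC.Main
import Pool.Agent.E8helper19.LC.Stm3

/-!
# Project LC: the rate `α⁻²` is optimal at high energy
-/

set_option autoImplicit false
open MeasureTheory Filter Topology Set
open scoped ContDiff Real BoundedContinuousFunction

namespace Pool.Agent.E8helper19.LC

noncomputable section

theorem DD_sym {α k : ℝ} {γ : ℝ → P} (hs : ∀ s t, Dk α k γ s t = Dk α k γ t s)
    (hi : Integrable (fun z : ℝ × ℝ => Dk α k γ z.1 z.2)) {u v : ℝ → ℂ} (hu : BC u) (hv : BC v) :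
    ∫ s, u s * DD α k γ v s = ∫ s, v s * DD α k γ u s := by
  have hint : Integrable (Function.uncurry fun s t : ℝ => u s * (((Dk α k γ s t : ℝ) : ℂ) * v t))
      (volume.prod volume) := by
    obtain ⟨C, hC⟩ := hu.bdd
    obtain ⟨D, hD⟩ := hv.bdd
    have h1 : Integrable (fun z : ℝ × ℝ => ((Dk α k γ z.1 z.2 : ℝ) : ℂ) * v z.2)
        (volume.prod volume) :=
      (hi.ofReal).mul_bdd (hv.cont.comp continuous_snd).aestronglyMeasurable
        (Eventually.of_forall fun z => hD z.2)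
    exact h1.bdd_mul (hu.cont.comp continuous_fst).aestronglyMeasurable
      (Eventually.of_forall fun z => hC z.1)
  calc ∫ s, u s * DD α k γ v s = ∫ s, ∫ t, u s * (((Dk α k γ s t : ℝ) : ℂ) * v t) := by
        refine integral_congr_ae (Eventually.of_forall fun s => ?_)
        simp only [DD]
        rw [integral_const_mul]
    _ = ∫ t, ∫ s, u s * (((Dk α k γ s t : ℝ) : ℂ) * v t) := integral_integral_swap hint
    _ = ∫ t, v t * DD α k γ u t := by
        refine integral_congr_ae (Eventually.of_forall fun t => ?_)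
        simp only [DD]
        rw [← integral_const_mul]
        refine integral_congr_ae (Eventually.of_forall fun s => ?_)
        simp only
        rw [hs s t]
        ring

/-- `E u = (α²/2) D u - V u` -/
def EE (α k : ℝ) (γ : ℝ → P) (u : ℝ → ℂ) (s : ℝ) : ℂ :=
  ((α ^ 2 / 2 : ℝ) : ℂ) * DD α k γ u s - ((kap2 γ s / 4 : ℝ) : ℂ) * u s

theorem EE_int {α k : ℝ} {γ : ℝ → P} (hV : Continuous (fun s => kap2 γ s / 4))
    (hVc : HasCompactSupport (fun s => kap2 γ s / 4))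
    (hDD : ∀ f, BC f → BC (DD α k γ f) ∧ Integrable (DD α k γ f)) {u v : ℝ → ℂ}
    (hu : BC u) (hv : BC v) :
    Integrable (fun s => u s * DD α k γ v s) ∧
      Integrable (fun s => u s * (((kap2 γ s / 4 : ℝ) : ℂ) * v s)) := by
  obtain ⟨C, hC⟩ := hu.bdd
  exact ⟨(hDD v hv).2.bdd_mul hu.cont.aestronglyMeasurable (Eventually.of_forall hC),
    int_K0 hV hVc hv.cont hu.cont⟩

theorem EE_sym {α k : ℝ} {γ : ℝ → P} (hV : Continuous (fun s => kap2 γ s / 4))
    (hVc : HasCompactSupport (fun s => kap2 γ s / 4))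
    (hDD : ∀ f, BC f → BC (DD α k γ f) ∧ Integrable (DD α k γ f))
    (hs : ∀ s t, Dk α k γ s t = Dk α k γ t s)
    (hi : Integrable (fun z : ℝ × ℝ => Dk α k γ z.1 z.2)) {u v : ℝ → ℂ} (hu : BC u) (hv : BC v) :
    ∫ s, u s * EE α k γ v s = ∫ s, v s * EE α k γ u s := by
  have e : ∀ {u v : ℝ → ℂ}, BC u → BC v → ∫ s, u s * EE α k γ v s =
      ((α ^ 2 / 2 : ℝ) : ℂ) * (∫ s, u s * DD α k γ v s) -
        ∫ s, u s * (((kap2 γ s / 4 : ℝ) : ℂ) * v s) := by
    intro u v hu hv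
    obtain ⟨h1, h2⟩ := EE_int hV hVc hDD hu hv
    rw [← integral_const_mul, ← integral_sub (h1.const_mul _) h2]
    refine integral_congr_ae (Eventually.of_forall fun s => ?_)
    simp only [EE]
    ring
  rw [e hu hv, e hv hu, DD_sym hs hi hu hv]
  congr 1
  refine integral_congr_ae (Eventually.of_forall fun s => ?_)
  simp only
  ring

theorem EE_lin {α k : ℝ} {γ : ℝ → P} (hV : Continuous (fun s => kap2 γ s / 4))
    (hVc : HasCompactSupport (fun s => kap2 γ s / 4))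
    (hDD : ∀ f, BC f → BC (DD α k γ f) ∧ Integrable (DD α k γ f)) {u v : ℝ → ℂ}
    (hu : BC u) (hv : BC v) : Integrable (fun s => u s * EE α k γ v s) := by
  obtain ⟨h1, h2⟩ := EE_int hV hVc hDD hu hv
  refine ((h1.const_mul ((α ^ 2 / 2 : ℝ) : ℂ)).sub h2).congr (Eventually.of_forall fun s => ?_)
  simp only [EE, Pi.sub_apply]
  ring

theorem EE_bound {α k : ℝ} {γ : ℝ → P} {u v : ℝ → ℂ} {B N : ℝ}
    (hi : Integrable (EE α k γ v)) (hN : ∀ s, ‖u s‖ ≤ N) (hB : ∫ s, ‖EE α k γ v s‖ ≤ B) :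
    ‖∫ s, u s * EE α k γ v s‖ ≤ N * B := by
  have hN0 : 0 ≤ N := (norm_nonneg _).trans (hN 0)
  calc ‖∫ s, u s * EE α k γ v s‖ ≤ ∫ s, N * ‖EE α k γ v s‖ := by
        refine norm_integral_le_of_norm_le (hi.norm.const_mul N) (Eventually.of_forall fun s => ?_)
        rw [norm_mul]
        exact mul_le_mul_of_nonneg_right (hN s) (norm_nonneg _)
    _ = N * ∫ s, ‖EE α k γ v s‖ := integral_const_mul _ _
    _ ≤ N * B := mul_le_mul_of_nonneg_left hB hN0

theorem pw_deriv (k s : ℝ) : HasDerivAt (pw k) (Complex.I * k * pw k s) s := by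
  have h1 : HasDerivAt (fun s : ℝ => Complex.I * k * (s : ℂ)) (Complex.I * k) s := by
    have := (Complex.ofRealCLM.hasDerivAt (x := s)).const_mul (Complex.I * (k : ℂ))
    simpa using this
  have h2 := h1.cexp
  unfold pw
  rw [mul_comm (Complex.I * (k : ℂ)) (Complex.exp _)]
  exact h2

theorem pw_c2 (k : ℝ) : ContDiff ℝ 2 (pw k) := by
  unfold pw
  have : ContDiff ℝ 2 (fun s : ℝ => Complex.I * k * (s : ℂ)) :=
    contDiff_const.mul Complex.ofRealCLM.contDiff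
  exact this.cexp

theorem pw_d1 (k : ℝ) : deriv (pw k) = fun s => Complex.I * k * pw k s :=
  funext fun s => (pw_deriv k s).deriv

theorem pw_d2 (k : ℝ) : deriv (deriv (pw k)) = fun s => Complex.I * k * (Complex.I * k * pw k s) := by
  rw [pw_d1]
  funext s
  exact ((pw_deriv k s).const_mul _).deriv

theorem pw_n1 (k s : ℝ) : ‖deriv (pw k) s‖ ≤ |k| := by
  rw [pw_d1]
  simp [pw_norm]

theorem pw_n2 (k s : ℝ) : ‖deriv (deriv (pw k)) s‖ ≤ k ^ 2 := by
  rw [pw_d2]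
  simp only [norm_mul, Complex.norm_I, Complex.norm_real, pw_norm, one_mul, mul_one,
    Real.norm_eq_abs]
  rw [← sq, sq_abs]

/-- from a generalized eigenfunction to the integral equation -/
theorem of_LeftIn (hKEY : S_KEY) (hA : S_REPA) {γ : ℝ → P} {L k α : ℝ} {w : ℝ → ℝ}
    (hγ : Crv γ L) (hne : deriv γ L ≠ -deriv γ (-L)) (hk : 0 < k) (hα2 : 2 * k < α)
    (hw : Wk α k w) {ψ : P → ℂ} {r t : ℂ} (h : LeftIn α k γ ψ r t) :
    BC (fun s => ψ (γ s)) ∧ (∀ s, ψ (γ s) = pw k s + KK α k γ w (fun s => ψ (γ s)) s) ∧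
      t = 1 + Complex.I / (2 * k) * ((α ^ 2 / 2 : ℝ) : ℂ) *
        ∫ s, pw (-k) s * DD α k γ (fun s => ψ (γ s)) s := by
  obtain ⟨hG, ha1, ha2⟩ := h
  have hrep := hA γ L k α ψ hγ hne hk hα2 hG
  have hBC' : BC (fun s => ψ (γ s)) := by
    obtain ⟨C, hC⟩ := hG.bdd
    exact ⟨hG.cont.comp hγ.smooth.continuous, C, fun s => hC _⟩
  have hAG' : ∀ s, AG α k γ (fun s => ψ (γ s)) s = ψ (γ s) := fun s => (hrep (γ s)).symm
  have hu0 : ∀ (F : Filter ℝ) (a b : ℂ), Asy α k γ ψ F a b →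
      Asy1 k (fun s => ψ (γ s)) F a b := by
    intro F a b h
    have := h 0
    unfold Asy1
    simpa using this
  obtain ⟨g1, g2, g3⟩ := (hKEY γ L k α w (fun s => ψ (γ s)) r t hγ hne hk hα2 hw hBC').1
    ⟨hAG', hu0 _ _ _ ha1, hu0 _ _ _ ha2⟩
  exact ⟨hBC', g1, g3⟩

theorem t_SHARP (hT : S_TAY) (hW : S_W) (hD3 : S_D3) (hKEY : S_KEY) (hCONV : SCONV 2)
    (hK0 : S_K0) (h1D : S_1DA) (hA : S_REPA) (hR : S_REV) (hU1 : S_U1) (hOP : S_OP) (hPW : S_PW)
    (hLK : S_LK) (hREC : S_REC) : S_SHARP := by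
  intro γ L hγ hne hne0
  obtain ⟨-, -, -, -, -, hkc, hk0⟩ := hT γ L hγ
  obtain ⟨-, -, hR3⟩ := hR
  have hV : Continuous (fun s => kap2 γ s / 4) := hkc.div_const 4
  have hVc : HasCompactSupport (fun s => kap2 γ s / 4) := by
    refine HasCompactSupport.intro (isCompact_Icc (a := -L) (b := L)) fun s hs => ?_
    have : L < |s| := by
      by_contra hcon
      exact hs (abs_le.1 (not_lt.1 hcon))
    simp [hk0 s this]
  have hkc' : HasCompactSupport (kap2 γ) := by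
    refine HasCompactSupport.intro (isCompact_Icc (a := -L) (b := L)) fun s hs => ?_
    have : L < |s| := by
      by_contra hcon
      exact hs (abs_le.1 (not_lt.1 hcon))
    exact hk0 s this
  have hkap0 : ∀ s, 0 ≤ kap2 γ s := fun s => by
    simp only [kap2]
    positivity
  have hV0 : ∀ s, 0 ≤ (fun s => kap2 γ s / 4) s := fun s => div_nonneg (hkap0 s) (by norm_num)
  -- the constants
  set IK : ℝ := ∫ s, kap2 γ s with hIK
  have hki : Integrable (kap2 γ) := hkc.integrable_of_hasCompactSupport hkc'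
  have hIKpos : 0 < IK := by
    obtain ⟨s0, hs0⟩ := hne0
    rw [hIK, integral_pos_iff_support_of_nonneg hkap0 hki]
    exact (hkc.isOpen_support).measure_pos volume ⟨s0, hs0⟩
  obtain ⟨C1, k1, hC1, hk1, hlk⟩ := hLK _ hV hVc hV0
  obtain ⟨C2, hC2, hop⟩ := hOP γ L hγ hne
  obtain ⟨C3, hC3, hpw⟩ := hPW γ L hγ hne
  obtain ⟨C4, hC4, hu1⟩ := hU1 γ L hγ hne
  -- the bound for the remainder
  set C8 : ℝ := C3 + 3 * IK * C4 + 1 + C1 * C2 * 4 + C1 * C2 * (4 + 2 * C1) with hC8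
  have hC8pos : 0 < C8 := by positivity
  refine ⟨max (max k1 1) (C8 / (3 * IK)), 3 / 2 * IK, ?_, by positivity, ?_⟩
  · exact lt_of_lt_of_le one_pos ((le_max_right _ _).trans (le_max_left _ _))
  intro k hkk
  have hkk1 : k1 ≤ k := ((le_max_left _ _).trans (le_max_left _ _)).trans hkk
  have hk1' : 1 ≤ k := ((le_max_right _ _).trans (le_max_left _ _)).trans hkk
  have hkC8 : C8 / (3 * IK) ≤ k := (le_max_right _ _).trans hkk
  have hk : 0 < k := by linarith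
  obtain ⟨C₀, hC₀, hb, -⟩ := hK0 k _ hk hV hVc hV0
  obtain ⟨A₁, C₁, hA₁, hC₁, hconv⟩ := hCONV γ L k hγ hne hk
  obtain ⟨A2, hA2, hop⟩ := hop k hk
  obtain ⟨A3, hA3, hpw⟩ := hpw k hk
  obtain ⟨A4, hA4, hu1⟩ := hu1 k hk
  -- the solution coming in from the right
  obtain ⟨g', rg, tg, hg1, -⟩ := left1 hK0 h1D k (fun s => kap2 γ (-s) / 4) hk
    (hV.comp continuous_neg) (hVc.comp_homeomorph (Homeomorph.neg ℝ)) (fun s => hV0 (-s))
  have hgR : RightIn1 k (fun s => kap2 γ s / 4) (fun s => g' (-s)) rg tg := by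
    rw [hR3]
    simpa using hg1
  set g : ℝ → ℂ := fun s => g' (-s) with hgdef
  obtain ⟨g2, gb, gd1, gd2, -, gR⟩ := hlk k g rg tg hkk1 (Or.inr hgR)
  obtain ⟨geq, gdist⟩ := gR hgR
  have gBC : BC g := ⟨g2.continuous, 2, gb⟩
  -- thresholds
  set X : ℝ := C₀ * C₁ * 3 with hX
  set Y : ℝ := C₀ * (C₁ * 3) * (C2 * ((1 + k ^ 2) * 2 + C1 * k + C1 * k ^ 2)) with hY
  refine ⟨max (max (max A₁ A2) (max A3 A4)) (max 1 (max X Y)), ?_⟩
  intro α ψ r t f₀ r₀ t₀ hα hψ hf₀L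
  have hαA₁ : A₁ ≤ α := ((le_max_left _ _).trans ((le_max_left _ _).trans (le_max_left _ _))).trans hα
  have hαA2 : A2 ≤ α := ((le_max_right _ _).trans ((le_max_left _ _).trans (le_max_left _ _))).trans hα
  have hαA3 : A3 ≤ α := ((le_max_left _ _).trans ((le_max_right _ _).trans (le_max_left _ _))).trans hα
  have hαA4 : A4 ≤ α := ((le_max_right _ _).trans ((le_max_right _ _).trans (le_max_left _ _))).trans hα
  have hα1 : 1 ≤ α := ((le_max_left _ _).trans (le_max_right _ _)).trans hα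
  have hαX : X ≤ α := ((le_max_left _ _).trans ((le_max_right _ _).trans (le_max_right _ _))).trans hα
  have hαY : Y ≤ α := ((le_max_right _ _).trans ((le_max_right _ _).trans (le_max_right _ _))).trans hα
  have hα0 : 0 < α := by linarith
  have hα2 : 2 * k < α := hA₁.trans_le hαA₁
  have hsq : α ≤ α ^ 2 := by nlinarith
  obtain ⟨w, hw⟩ := hW α k hk hα2
  obtain ⟨-, hDs, hDi, -, -, hDD⟩ := hD3 γ L k α hγ hne hk hα2
  have hDD' : ∀ f, BC f → BC (DD α k γ f) ∧ Integrable (DD α k γ f) :=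
    fun f hf => ⟨(hDD f hf).1, (hDD f hf).2.1⟩
  -- the two solutions coming in from the left
  obtain ⟨fBC, feq, ht⟩ := of_LeftIn hKEY hA hγ hne hk hα2 hw hψ
  set f : ℝ → ℂ := fun s => ψ (γ s) with hfdef
  obtain ⟨f02, f0b, f0d1, f0d2, f0L, -⟩ := hlk k f₀ r₀ t₀ hkk1 (Or.inl hf₀L)
  obtain ⟨f0eq, f0dist⟩ := f0L hf₀L
  obtain ⟨f0BC, -, -, ht₀⟩ := (h1D k _ f₀ r₀ t₀ hk hV hVc).1 hf₀L
  -- the bound of `f - f₀`
  set N : ℝ := ‖toB f fBC‖ with hN
  have hNb : ∀ s, ‖f s‖ ≤ N := fun s => (toB f fBC).norm_coe_le_norm s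
  have hcv := hconv α w f N hαA₁ hw fBC hNb
  have hdist0 : ∀ s, ‖(f - f₀) s‖ ≤ C₀ * (C₁ / α ^ 2 * N) := by
    refine hb (KK α k γ w f - K0 k (fun s => kap2 γ s / 4) f) (f - f₀) _
      (hcv.1.sub (K0_bc hk hV hVc fBC.cont)) (fBC.sub f0BC) hcv.2.1 (fun s => ?_)
    rw [K0_sub hV hVc fBC.cont f0BC.cont]
    have e1 := feq s
    have e2 := f0eq s
    simp only [Pi.sub_apply]
    linear_combination e1 - e2
  have hN3 : N ≤ 3 := by
    have h1 : ∀ s, ‖f s‖ ≤ 2 + C₀ * (C₁ / α ^ 2 * N) := by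
      intro s
      have e : f s = f₀ s + (f - f₀) s := by simp
      rw [e]
      exact (norm_add_le _ _).trans (add_le_add (f0b s) (hdist0 s))
    have h2 : N ≤ 2 + C₀ * (C₁ / α ^ 2 * N) := by
      rw [hN, BoundedContinuousFunction.norm_le ((norm_nonneg _).trans (h1 0))]
      exact h1
    have h3 : C₀ * (C₁ / α ^ 2 * N) ≤ 1 / 3 * N := by
      have : C₀ * (C₁ / α ^ 2 * N) = (C₀ * C₁ / α ^ 2) * N := by ring
      rw [this]
      refine mul_le_mul_of_nonneg_right ?_ (norm_nonneg _)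
      rw [div_le_iff₀ (by positivity)]
      have : X ≤ α ^ 2 := hαX.trans hsq
      rw [hX] at this
      linarith
    linarith
  have hN0 : 0 ≤ N := norm_nonneg _
  have hdist : ∀ s, ‖(f - f₀) s‖ ≤ C₀ * (C₁ * 3) / α ^ 2 := by
    intro s
    refine (hdist0 s).trans ?_
    have : C₀ * (C₁ / α ^ 2 * N) = C₀ * (C₁ * N) / α ^ 2 := by ring
    rw [this]
    refine div_le_div_of_nonneg_right ?_ (by positivity)
    exact mul_le_mul_of_nonneg_left (mul_le_mul_of_nonneg_left hN3 hC₁.le) hC₀.le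
  -- `T`
  set h : ℝ → ℂ := fun s => ((α ^ 2 / 2 : ℝ) : ℂ) * DD α k γ f s with hh
  have hhi : Integrable h := (hDD' f fBC).2.const_mul _
  have hrec := hREC k _ f₀ g h hk hV hVc f0BC gBC hhi f0eq geq
  set T : ℂ := ∫ s, g s * (h s - ((kap2 γ s / 4 : ℝ) : ℂ) *
    (pw k s + ∫ t, g0 k (s - t) * h t)) with hTdef
  have hTT : t - t₀ = Complex.I / (2 * k) * T := by
    rw [← hrec, ht, ht₀]
    have i1 : Integrable (fun s => pw (-k) s * h s) :=
      hhi.bdd_mul (pw_cont (-k)).aestronglyMeasurable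
        (Eventually.of_forall fun s => (pw_norm (-k) s).le)
    have i2 : Integrable (fun s => pw (-k) s * (((kap2 γ s / 4 : ℝ) : ℂ) * f₀ s)) :=
      int_K0 hV hVc f0BC.cont (pw_cont (-k))
    have e1 : ∫ s, pw (-k) s * (h s - ((kap2 γ s / 4 : ℝ) : ℂ) * f₀ s) =
        (∫ s, pw (-k) s * h s) - ∫ s, pw (-k) s * (((kap2 γ s / 4 : ℝ) : ℂ) * f₀ s) := by
      rw [← integral_sub i1 i2]
      refine integral_congr_ae (Eventually.of_forall fun s => ?_)
      simp only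
      ring
    have e2 : ∫ s, pw (-k) s * h s = ((α ^ 2 / 2 : ℝ) : ℂ) * ∫ s, pw (-k) s * DD α k γ f s := by
      rw [← integral_const_mul]
      refine integral_congr_ae (Eventually.of_forall fun s => ?_)
      simp only [hh]
      ring
    rw [e1, e2]
    ring
  -- `ε`
  set ε : ℝ → ℂ := fun s => DD α k γ f s + ∫ t, (w (s - t) : ℂ) * DD α k γ f t with hε
  have hFeq : ∀ s, pw k s + ∫ t, g0 k (s - t) * h t = f s - ε s := by
    intro s
    have e1 : ∫ t, g0 k (s - t) * h t =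
        ((α ^ 2 / 2 : ℝ) : ℂ) * ∫ t, g0 k (s - t) * DD α k γ f t := by
      rw [← integral_const_mul]
      refine integral_congr_ae (Eventually.of_forall fun t => ?_)
      simp only [hh]
      ring
    have e2 := feq s
    rw [e1]
    simp only [KK] at e2
    simp only [hε]
    linear_combination -e2
  have hu1a := (hu1 α hαA4).1
  have hDfb : ∀ s, ‖DD α k γ f s‖ ≤ 3 * (C4 / α ^ 2) := by
    intro s
    obtain ⟨hD0, -, -, hDis, -, -⟩ := hD3 γ L k α hγ hne hk hα2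
    calc ‖DD α k γ f s‖ ≤ ∫ t, Dk α k γ s t * 3 := by
          refine norm_integral_le_of_norm_le ((hDis s).mul_const 3)
            (Eventually.of_forall fun t => ?_)
          rw [norm_mul, Complex.norm_real, Real.norm_of_nonneg (hD0 s t)]
          exact mul_le_mul_of_nonneg_left ((hNb t).trans hN3) (hD0 s t)
      _ = (∫ t, Dk α k γ s t) * 3 := integral_mul_const _ _
      _ ≤ 3 * (C4 / α ^ 2) := by
          have := hu1a s
          linarith
  have hεb : ∀ s, ‖ε s‖ ≤ 6 * C4 / α ^ 2 := by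
    intro s
    have e1 : ‖∫ t, (w (s - t) : ℂ) * DD α k γ f t‖ ≤ 3 * (C4 / α ^ 2) := by
      have hwi : Integrable (fun t => |w (s - t)|) := (hw.int.comp_sub_left s).abs
      calc ‖∫ t, (w (s - t) : ℂ) * DD α k γ f t‖ ≤ ∫ t, |w (s - t)| * (3 * (C4 / α ^ 2)) := by
            refine norm_integral_le_of_norm_le (hwi.mul_const _) (Eventually.of_forall fun t => ?_)
            rw [norm_mul, Complex.norm_real, Real.norm_eq_abs]
            exact mul_le_mul_of_nonneg_left (hDfb t) (abs_nonneg _)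
        _ = (∫ t, |w (s - t)|) * (3 * (C4 / α ^ 2)) := integral_mul_const _ _
        _ = (∫ t, |w t|) * (3 * (C4 / α ^ 2)) := by
            rw [integral_sub_left_eq_self (fun t => |w t|) volume s]
        _ ≤ 1 * (3 * (C4 / α ^ 2)) := mul_le_mul_of_nonneg_right hw.le (by positivity)
        _ = 3 * (C4 / α ^ 2) := one_mul _
    calc ‖ε s‖ ≤ 3 * (C4 / α ^ 2) + 3 * (C4 / α ^ 2) := (norm_add_le _ _).trans
          (add_le_add (hDfb s) e1)
      _ = 6 * C4 / α ^ 2 := by ring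
  have hεc : Continuous ε := by
    have e : ε = fun s => f s - pw k s - ∫ t, g0 k (s - t) * h t := by
      funext s
      have := hFeq s
      linear_combination this
    rw [e]
    exact (fBC.cont.sub (pw_cont k)).sub (g0conv_bc hk hhi).cont
  -- decomposition of `T`
  have gE : ∀ v, BC v → Integrable (fun s => g s * EE α k γ v s) := fun v hv =>
    EE_lin hV hVc hDD' gBC hv
  have d1 : T = (∫ s, g s * EE α k γ f s) + ∫ s, g s * (((kap2 γ s / 4 : ℝ) : ℂ) * ε s) := by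
    rw [← integral_add (gE f fBC) (int_K0 hV hVc hεc gBC.cont), hTdef]
    refine integral_congr_ae (Eventually.of_forall fun s => ?_)
    simp only
    rw [hFeq s]
    simp only [hh, EE]
    ring
  have EEsub : ∀ u v, BC u → BC v → ∀ s, EE α k γ (u - v) s = EE α k γ u s - EE α k γ v s := by
    intro u v hu hv s
    simp only [EE, DD_sub (hD3 γ L k α hγ hne hk hα2).2.2.2.1 hu hv s, Pi.sub_apply]
    ring
  have d2 : ∫ s, g s * EE α k γ f s =
      (∫ s, (f - f₀) s * EE α k γ g s) + ∫ s, g s * EE α k γ f₀ s := by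
    rw [← EE_sym hV hVc hDD' hDs hDi gBC (fBC.sub f0BC),
      ← integral_add (gE _ (fBC.sub f0BC)) (gE _ f0BC)]
    refine integral_congr_ae (Eventually.of_forall fun s => ?_)
    simp only
    rw [EEsub f f₀ fBC f0BC s]
    ring
  have d3 : ∫ s, g s * EE α k γ f₀ s = (∫ s, pw (-k) s * EE α k γ (pw k) s) +
      (∫ s, (f₀ - pw k) s * EE α k γ (pw (-k)) s) +
      ∫ s, (g - pw (-k)) s * EE α k γ f₀ s := by
    have i1 := EE_lin hV hVc hDD' (pw_bc (-k)) (pw_bc k)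
    have i2 := EE_lin hV hVc hDD' (pw_bc (-k)) (f0BC.sub (pw_bc k))
    have i3 := EE_lin hV hVc hDD' (gBC.sub (pw_bc (-k))) f0BC
    have i12 : Integrable (fun s => pw (-k) s * EE α k γ (pw k) s +
        pw (-k) s * EE α k γ (f₀ - pw k) s) := i1.add i2
    rw [← EE_sym hV hVc hDD' hDs hDi (pw_bc (-k)) (f0BC.sub (pw_bc k)),
      ← integral_add i1 i2, ← integral_add i12 i3]
    refine integral_congr_ae (Eventually.of_forall fun s => ?_)
    simp only
    rw [EEsub f₀ (pw k) f0BC (pw_bc k) s]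
    simp only [Pi.sub_apply]
    ring
  -- bounds
  have hp : 0 < α ^ 2 := by positivity
  have b1 : ‖((α ^ 2 : ℝ) : ℂ) * (∫ s, pw (-k) s * EE α k γ (pw k) s) +
      ((6 * k ^ 2 * IK : ℝ) : ℂ)‖ ≤ C3 := hpw α hαA3
  have b2 : ‖∫ s, (f₀ - pw k) s * EE α k γ (pw (-k)) s‖ ≤
      C1 / k * (C2 * ((1 + k ^ 2) * 1 + |(-k)| + (-k) ^ 2) / α ^ 2) := by
    obtain ⟨i1, i2⟩ := hop α hαA2 (pw (-k)) 1 (|(-k)|) ((-k) ^ 2) (pw_c2 _)
      (fun s => (pw_norm _ s).le) (pw_n1 _) (pw_n2 _)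
    exact EE_bound i1 (fun s => f0dist s) i2
  have b3 : ‖∫ s, (g - pw (-k)) s * EE α k γ f₀ s‖ ≤
      C1 / k * (C2 * ((1 + k ^ 2) * 2 + C1 * k + C1 * k ^ 2) / α ^ 2) := by
    obtain ⟨i1, i2⟩ := hop α hαA2 f₀ 2 (C1 * k) (C1 * k ^ 2) f02 f0b f0d1 f0d2
    exact EE_bound i1 (fun s => gdist s) i2
  have b4 : ‖∫ s, (f - f₀) s * EE α k γ g s‖ ≤
      C₀ * (C₁ * 3) / α ^ 2 * (C2 * ((1 + k ^ 2) * 2 + C1 * k + C1 * k ^ 2) / α ^ 2) := by
    obtain ⟨i1, i2⟩ := hop α hαA2 g 2 (C1 * k) (C1 * k ^ 2) g2 gb gd1 gd2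
    exact EE_bound i1 hdist i2
  have b5 : ‖∫ s, g s * (((kap2 γ s / 4 : ℝ) : ℂ) * ε s)‖ ≤ 3 * IK * C4 / α ^ 2 := by
    calc ‖∫ s, g s * (((kap2 γ s / 4 : ℝ) : ℂ) * ε s)‖
        ≤ ∫ s, kap2 γ s * (3 * C4 / α ^ 2) := by
          refine norm_integral_le_of_norm_le (hki.mul_const _) (Eventually.of_forall fun s => ?_)
          rw [norm_mul, norm_mul, Complex.norm_real, Real.norm_of_nonneg (hV0 s)]
          have e1 := gb s
          have e2 := hεb s
          have e3 := hkap0 s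
          calc ‖g s‖ * (kap2 γ s / 4 * ‖ε s‖) ≤ 2 * (kap2 γ s / 4 * (6 * C4 / α ^ 2)) := by
                refine mul_le_mul e1 (mul_le_mul_of_nonneg_left e2 (by positivity)) ?_
                  (by norm_num)
                positivity
            _ = kap2 γ s * (3 * C4 / α ^ 2) := by ring
      _ = IK * (3 * C4 / α ^ 2) := integral_mul_const _ _
      _ = 3 * IK * C4 / α ^ 2 := by ring
  have key : ‖((α ^ 2 : ℝ) : ℂ) * T + ((6 * k ^ 2 * IK : ℝ) : ℂ)‖ ≤ C8 * k := by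
    have eT : ((α ^ 2 : ℝ) : ℂ) * T + ((6 * k ^ 2 * IK : ℝ) : ℂ) =
        (((α ^ 2 : ℝ) : ℂ) * (∫ s, pw (-k) s * EE α k γ (pw k) s) +
          ((6 * k ^ 2 * IK : ℝ) : ℂ)) +
        ((α ^ 2 : ℝ) : ℂ) * (∫ s, (f₀ - pw k) s * EE α k γ (pw (-k)) s) +
        ((α ^ 2 : ℝ) : ℂ) * (∫ s, (g - pw (-k)) s * EE α k γ f₀ s) +
        ((α ^ 2 : ℝ) : ℂ) * (∫ s, (f - f₀) s * EE α k γ g s) +
        ((α ^ 2 : ℝ) : ℂ) * (∫ s, g s * (((kap2 γ s / 4 : ℝ) : ℂ) * ε s)) := by
      rw [d1, d2, d3]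
      ring
    have mul_b : ∀ (z : ℂ) (b : ℝ), ‖z‖ ≤ b / α ^ 2 → ‖((α ^ 2 : ℝ) : ℂ) * z‖ ≤ b := by
      intro z b hz
      rw [norm_mul, Complex.norm_real, Real.norm_of_nonneg hp.le]
      calc α ^ 2 * ‖z‖ ≤ α ^ 2 * (b / α ^ 2) := mul_le_mul_of_nonneg_left hz hp.le
        _ = b := by field_simp
    have c2 := mul_b _ (C1 / k * (C2 * ((1 + k ^ 2) * 1 + |(-k)| + (-k) ^ 2)))
      (b2.trans (le_of_eq (by ring)))
    have c3 := mul_b _ (C1 / k * (C2 * ((1 + k ^ 2) * 2 + C1 * k + C1 * k ^ 2)))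
      (b3.trans (le_of_eq (by ring)))
    have c4 := mul_b _ (Y / α ^ 2) (b4.trans (le_of_eq (by rw [hY]; ring)))
    have c5 := mul_b _ (3 * IK * C4) b5
    have c4' : Y / α ^ 2 ≤ 1 := by
      rw [div_le_one hp]
      exact hαY.trans hsq
    have n2 : C1 / k * (C2 * ((1 + k ^ 2) * 1 + |(-k)| + (-k) ^ 2)) ≤ C1 * C2 * 4 * k := by
      rw [abs_neg, abs_of_pos hk, neg_sq, div_mul_eq_mul_div, div_le_iff₀ hk]
      have : (1 + k ^ 2) * 1 + k + k ^ 2 ≤ 4 * k * k := by nlinarith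
      calc C1 * (C2 * ((1 + k ^ 2) * 1 + k + k ^ 2)) ≤ C1 * (C2 * (4 * k * k)) :=
            mul_le_mul_of_nonneg_left (mul_le_mul_of_nonneg_left this hC2.le) hC1.le
        _ = C1 * C2 * 4 * k * k := by ring
    have n3 : C1 / k * (C2 * ((1 + k ^ 2) * 2 + C1 * k + C1 * k ^ 2)) ≤
        C1 * C2 * (4 + 2 * C1) * k := by
      rw [div_mul_eq_mul_div, div_le_iff₀ hk]
      have e1 : C1 * k ≤ C1 * (k * k) := mul_le_mul_of_nonneg_left (by nlinarith) hC1.le
      have : (1 + k ^ 2) * 2 + C1 * k + C1 * k ^ 2 ≤ (4 + 2 * C1) * k * k := by nlinarith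
      calc C1 * (C2 * ((1 + k ^ 2) * 2 + C1 * k + C1 * k ^ 2)) ≤
            C1 * (C2 * ((4 + 2 * C1) * k * k)) :=
            mul_le_mul_of_nonneg_left (mul_le_mul_of_nonneg_left this hC2.le) hC1.le
        _ = C1 * C2 * (4 + 2 * C1) * k * k := by ring
    rw [eT]
    refine (norm_add_le _ _).trans ?_
    refine (add_le_add_left ((norm_add_le _ _).trans (add_le_add_left ((norm_add_le _ _).trans
      (add_le_add_left (norm_add_le _ _) _)) _)) _).trans ?_
    have m1 : C3 ≤ C3 * k := le_mul_of_one_le_right hC3.le hk1'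
    have m2 : 3 * IK * C4 ≤ 3 * IK * C4 * k := le_mul_of_one_le_right (by positivity) hk1'
    rw [hC8]
    nlinarith
  -- conclusion
  have hnormT : 3 * k ^ 2 * IK ≤ α ^ 2 * ‖T‖ := by
    have e1 : 6 * k ^ 2 * IK ≤ ‖((α ^ 2 : ℝ) : ℂ) * T‖ + C8 * k := by
      calc 6 * k ^ 2 * IK = ‖((6 * k ^ 2 * IK : ℝ) : ℂ)‖ := by
            rw [Complex.norm_real, Real.norm_of_nonneg (by positivity)]
        _ = ‖-(((α ^ 2 : ℝ) : ℂ) * T) + (((α ^ 2 : ℝ) : ℂ) * T + ((6 * k ^ 2 * IK : ℝ) : ℂ))‖ := by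
            congr 1
            ring
        _ ≤ ‖-(((α ^ 2 : ℝ) : ℂ) * T)‖ + ‖((α ^ 2 : ℝ) : ℂ) * T + ((6 * k ^ 2 * IK : ℝ) : ℂ)‖ :=
            norm_add_le _ _
        _ ≤ ‖((α ^ 2 : ℝ) : ℂ) * T‖ + C8 * k := by
            rw [norm_neg]
            exact add_le_add_right key _
    rw [norm_mul, Complex.norm_real, Real.norm_of_nonneg hp.le] at e1
    have e2 : C8 ≤ 3 * IK * k := by
      rw [div_le_iff₀ (by positivity)] at hkC8
      linarith
    nlinarith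
  rw [hTT, norm_mul, norm_div, Complex.norm_I, norm_mul, Complex.norm_real,
    Real.norm_of_nonneg hk.le]
  rw [show ‖(2 : ℂ)‖ = 2 by simp, div_le_iff₀ hp]
  have : 3 / 2 * IK * k = 1 / (2 * k) * (3 * k ^ 2 * IK) := by
    field_simp
  rw [this]
  calc 1 / (2 * k) * (3 * k ^ 2 * IK) ≤ 1 / (2 * k) * (α ^ 2 * ‖T‖) :=
        mul_le_mul_of_nonneg_left hnormT (by positivity)
    _ = 1 / (2 * k) * ‖T‖ * α ^ 2 := by ring

end

end Pool.Agent.E8helper19.LC
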