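import Mathlib

/-!
# Project LC: exact statements of the pieces (MP_862eda_mp)

Strong-coupling limit of the scattering matrix for a leaky curve. Nothing is proved here.
-/

set_option autoImplicit false
open MeasureTheory Filter Topology Set Laplacian
open scoped ContDiff Real

namespace Pool.Agent.E8helper19.LC

noncomputable section

/-- `ℝ²` -/
abbrev P : Type := EuclideanSpace ℝ (Fin 2)

/-- rotation by a right angle -/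
def rot (v : P) : P := WithLp.toLp 2 ![-v 1, v 0]

/-- curves of class `C⁴` without self-intersections, parametrised by arc length, which coincide
with two straight half-lines outside a compact set -/
structure Crv (γ : ℝ → P) (L : ℝ) : Prop where
  pos : 0 < L
  smooth : ContDiff ℝ 4 γ
  unit : ∀ s, ‖deriv γ s‖ = 1
  inj : Function.Injective γ
  left : ∀ s ≤ -L, γ s = γ (-L) + (s + L) • deriv γ (-L)
  right : ∀ s, L ≤ s → γ s = γ L + (s - L) • deriv γ L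

/-- the square of the curvature -/
def kap2 (γ : ℝ → P) (s : ℝ) : ℝ := ‖deriv (deriv γ) s‖ ^ 2

/-- the Green function of `-Δ + μ²` in the plane, as a function of the distance `ρ` -/
def Gk (μ ρ : ℝ) : ℝ :=
  ∫ t in Ioi (0 : ℝ), (4 * π * t)⁻¹ * Real.exp (-(ρ ^ 2 / (4 * t) + μ ^ 2 * t))

/-- `μ = (α²/4 - k²)^(1/2)` -/
def mu (α k : ℝ) : ℝ := √(α ^ 2 / 4 - k ^ 2)

/-- the plane wave `e^(iks)` -/
def pw (k s : ℝ) : ℂ := Complex.exp (Complex.I * k * s)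

/-! ## The scattering matrices -/

/-- `ψ` is a bounded continuous solution of `-Δψ - α δ_Γ ψ = (k² - α²/4) ψ` -/
structure GEF (α k : ℝ) (γ : ℝ → P) (ψ : P → ℂ) : Prop where
  cont : Continuous ψ
  bdd : ∃ C : ℝ, ∀ x, ‖ψ x‖ ≤ C
  eq : ∀ φ : P → ℂ, ContDiff ℝ ∞ φ → HasCompactSupport φ →
    (∫ x, ψ x * -(Laplacian.laplacian φ x)) - α * ∫ s, ψ (γ s) * φ (γ s) =
      ((k ^ 2 - α ^ 2 / 4 : ℝ) : ℂ) * ∫ x, ψ x * φ x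

/-- `ψ` is asymptotic to the guided wave `(a e^(iks) + b e^(-iks)) e^(-α|u|/2)` in a lead -/
def Asy (α k : ℝ) (γ : ℝ → P) (ψ : P → ℂ) (F : Filter ℝ) (a b : ℂ) : Prop :=
  ∀ u : ℝ, Tendsto (fun s => ψ (γ s + u • rot (deriv γ s)) -
    (a * pw k s + b * pw (-k) s) * (Real.exp (-(α * |u| / 2)) : ℂ)) F (𝓝 0)

/-- reflection and transmission amplitudes `r`, `t` of a wave coming in from the left -/
def LeftIn (α k : ℝ) (γ : ℝ → P) (ψ : P → ℂ) (r t : ℂ) : Prop :=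
  GEF α k γ ψ ∧ Asy α k γ ψ atBot 1 r ∧ Asy α k γ ψ atTop t 0

/-- reflection and transmission amplitudes `r`, `t` of a wave coming in from the right -/
def RightIn (α k : ℝ) (γ : ℝ → P) (ψ : P → ℂ) (r t : ℂ) : Prop :=
  GEF α k γ ψ ∧ Asy α k γ ψ atTop r 1 ∧ Asy α k γ ψ atBot 0 t

/-- `f` solves `-f'' - V f = k² f` -/
structure Sol1 (k : ℝ) (V : ℝ → ℝ) (f : ℝ → ℂ) : Prop where
  smooth : ContDiff ℝ 2 f
  eq : ∀ s, -(deriv (deriv f) s) - V s * f s = ((k ^ 2 : ℝ) : ℂ) * f s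

/-- `f` is asymptotic to `a e^(iks) + b e^(-iks)` -/
def Asy1 (k : ℝ) (f : ℝ → ℂ) (F : Filter ℝ) (a b : ℂ) : Prop :=
  Tendsto (fun s => f s - (a * pw k s + b * pw (-k) s)) F (𝓝 0)

/-- amplitudes of a wave coming in from the left, for `-d²/ds² - V` -/
def LeftIn1 (k : ℝ) (V : ℝ → ℝ) (f : ℝ → ℂ) (r t : ℂ) : Prop :=
  Sol1 k V f ∧ Asy1 k f atBot 1 r ∧ Asy1 k f atTop t 0

/-- amplitudes of a wave coming in from the right, for `-d²/ds² - V` -/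
def RightIn1 (k : ℝ) (V : ℝ → ℝ) (f : ℝ → ℂ) (r t : ℂ) : Prop :=
  Sol1 k V f ∧ Asy1 k f atTop r 1 ∧ Asy1 k f atBot 0 t

/-! ## Bounded continuous functions and kernels on the curve -/

/-- bounded continuous functions -/
structure BC (f : ℝ → ℂ) : Prop where
  cont : Continuous f
  bdd : ∃ C : ℝ, ∀ s, ‖f s‖ ≤ C

/-- `(A f)(s) = α ∫ G(|γ(s)-γ(s')|) f(s') ds'` -/
def AG (α k : ℝ) (γ : ℝ → P) (f : ℝ → ℂ) (s : ℝ) : ℂ :=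
  ∫ t, ((α * Gk (mu α k) ‖γ s - γ t‖ : ℝ) : ℂ) * f t

/-- `(A⁰ f)(s) = α ∫ G(|s-s'|) f(s') ds'` -/
def A0 (α k : ℝ) (f : ℝ → ℂ) (s : ℝ) : ℂ :=
  ∫ t, ((α * Gk (mu α k) |s - t| : ℝ) : ℂ) * f t

/-- the kernel `D = A - A⁰` -/
def Dk (α k : ℝ) (γ : ℝ → P) (s t : ℝ) : ℝ :=
  α * (Gk (mu α k) ‖γ s - γ t‖ - Gk (mu α k) |s - t|)

/-- `D f` -/
def DD (α k : ℝ) (γ : ℝ → P) (f : ℝ → ℂ) (s : ℝ) : ℂ := ∫ t, ((Dk α k γ s t : ℝ) : ℂ) * f t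

/-- the outgoing Green function `(i/2k) e^(ik|s|)` -/
def g0 (k s : ℝ) : ℂ := Complex.I / (2 * k) * pw k |s|

/-- `w = a/(1+a)` is the convolution kernel with Fourier multiplier `α/(α+2(p²+μ²)^(1/2))`, where
`a(s) = α G(|s|)` -/
structure Wk (α k : ℝ) (w : ℝ → ℝ) : Prop where
  meas : Measurable w
  int : Integrable w
  le : ∫ s, |w s| ≤ 1
  eq1 : ∀ s : ℝ, g0 k s - (∫ r, ((α * Gk (mu α k) |s - r| : ℝ) : ℂ) * g0 k r) =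
    ((4 / α ^ 2 * ∫ r, α * Gk (mu α k) |s - r| * w r : ℝ) : ℂ)
  eq2 : ∀ᵐ s : ℝ, w s + (∫ r, α * Gk (mu α k) |s - r| * w r) = α * Gk (mu α k) |s|

/-- `K f = (α²/2) g₀ * (D f) + D f + w * (D f)` -/
def KK (α k : ℝ) (γ : ℝ → P) (w : ℝ → ℝ) (f : ℝ → ℂ) (s : ℝ) : ℂ :=
  ((α ^ 2 / 2 : ℝ) : ℂ) * (∫ t, g0 k (s - t) * DD α k γ f t) + DD α k γ f s +
    ∫ t, (w (s - t) : ℂ) * DD α k γ f t

/-- `K₀ f = g₀ * (V f)` -/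
def K0 (k : ℝ) (V : ℝ → ℝ) (f : ℝ → ℂ) (s : ℝ) : ℂ := ∫ t, g0 k (s - t) * (V t * f t)

/-! ## The pieces -/

/-- LC1. Chord and arc. -/
def S_CHORD : Prop :=
  ∀ (γ : ℝ → P) (L : ℝ), Crv γ L → deriv γ L ≠ -deriv γ (-L) →
    ∃ c : ℝ, 0 < c ∧ c ≤ 1 ∧ ∀ s t, c * |s - t| ≤ ‖γ s - γ t‖

/-- LC2. Taylor expansion of the chord. -/
def S_TAY : Prop :=
  ∀ (γ : ℝ → P) (L : ℝ), Crv γ L → ∃ C : ℝ, 0 < C ∧
    (∀ s t, ‖γ s - γ t‖ ≤ |s - t|) ∧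
    (∀ s t, |s - t| - ‖γ s - γ t‖ ≤ C * |s - t| ^ 3) ∧
    (∀ s t, |(|s - t| - ‖γ s - γ t‖) - kap2 γ t * |s - t| ^ 3 / 24| ≤ C * |s - t| ^ 4) ∧
    Continuous (kap2 γ) ∧ ∀ s, L < |s| → kap2 γ s = 0

/-- LC3. The Green function. -/
def S_G : Prop :=
  (∀ μ ρ : ℝ, 0 < μ → 0 < ρ → 0 < Gk μ ρ ∧ Gk μ ρ = Gk 1 (μ * ρ)) ∧
  (∀ μ : ℝ, 0 < μ → ContinuousOn (Gk μ) (Ioi 0)) ∧
  (∀ x y : ℝ, 0 < x → x ≤ y → Gk 1 y ≤ Gk 1 x) ∧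
  (∀ j : ℕ, IntegrableOn (fun x => x ^ j * Gk 1 x) (Ioi 0)) ∧
  (∀ μ : ℝ, 0 < μ → Integrable (fun x => Gk μ |x|)) ∧
  ∃ H Q : ℝ → ℝ, Measurable H ∧ Measurable Q ∧
    (∀ x, 0 < x → 0 ≤ H x ∧ 0 ≤ Q x) ∧
    (∀ x y, 0 < x → x ≤ y → H y ≤ H x ∧ Q y ≤ Q x) ∧
    (∀ x y, 0 < x → x ≤ y → Gk 1 x - Gk 1 y ≤ (y - x) * H x) ∧
    (∀ x y, 0 < x → x ≤ y → |Gk 1 x - Gk 1 y - (y - x) * H y| ≤ (y - x) ^ 2 * Q x) ∧
    (∀ j : ℕ, 1 ≤ j → IntegrableOn (fun x => x ^ j * H x) (Ioi 0)) ∧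
    (∀ j : ℕ, 2 ≤ j → IntegrableOn (fun x => x ^ j * Q x) (Ioi 0)) ∧
    ∫ x in Ioi (0 : ℝ), x ^ 3 * H x = 3 / 4

/-- LC4. Fourier transform of the Green function along a line. -/
def S_FT : Prop :=
  (∀ μ p : ℝ, 0 < μ → ∫ r : ℝ, ((Gk μ |r| : ℝ) : ℂ) * pw p r = ((1 / (2 * √(p ^ 2 + μ ^ 2)) : ℝ) : ℂ)) ∧
  ∀ μ p u : ℝ, 0 < μ → u ≠ 0 → ∫ r : ℝ, ((Gk μ (√(u ^ 2 + r ^ 2)) : ℝ) : ℂ) * pw p r =
    ((Real.exp (-(√(p ^ 2 + μ ^ 2) * |u|)) / (2 * √(p ^ 2 + μ ^ 2)) : ℝ) : ℂ)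

/-- LC5. The kernel `w`. -/
def S_W : Prop := ∀ α k : ℝ, 0 < k → 2 * k < α → ∃ w : ℝ → ℝ, Wk α k w

/-- LC6. A Liouville theorem. -/
def S_LIOU : Prop :=
  ∀ (α k : ℝ) (f : ℝ → ℂ), 0 < k → 2 * k < α → BC f → (∀ s, A0 α k f s = f s) →
    ∃ a b : ℂ, ∀ s, f s = a * pw k s + b * pw (-k) s

/-- LC7. Bounds for the kernel `D`. -/
def S_D1 : Prop :=
  ∀ (γ : ℝ → P) (L k : ℝ), Crv γ L → deriv γ L ≠ -deriv γ (-L) → 0 < k →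
    ∃ A C : ℝ, 2 * k < A ∧ 0 < C ∧ ∀ α, A ≤ α →
      (∀ s, ∫ t, Dk α k γ s t ≤ C / α ^ 2) ∧
      (∫ z : ℝ × ℝ, Dk α k γ z.1 z.2 ≤ C / α ^ 2) ∧
      Integrable (fun z : ℝ × ℝ => Dk α k γ z.1 z.2 * |z.1 - z.2|) ∧
      (∫ z : ℝ × ℝ, Dk α k γ z.1 z.2 * |z.1 - z.2| ≤ C / α ^ 3)

/-- LC8. The limit of the kernel `D`. -/
def S_D2 : Prop :=
  ∀ (γ : ℝ → P) (L k : ℝ), Crv γ L → deriv γ L ≠ -deriv γ (-L) → 0 < k →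
    ∃ A C : ℝ, 2 * k < A ∧ 0 < C ∧ ∀ α, A ≤ α →
      ∫ s, |α ^ 2 / 2 * (∫ t, Dk α k γ t s) - kap2 γ s / 4| ≤ C / α

/-- LC9. Qualitative properties of `D` for fixed `α`. -/
def S_D3 : Prop :=
  ∀ (γ : ℝ → P) (L k α : ℝ), Crv γ L → deriv γ L ≠ -deriv γ (-L) → 0 < k → 2 * k < α →
    (∀ s t, 0 ≤ Dk α k γ s t) ∧ (∀ s t, Dk α k γ s t = Dk α k γ t s) ∧
    Integrable (fun z : ℝ × ℝ => Dk α k γ z.1 z.2) ∧
    (∀ s, Integrable (fun t => Dk α k γ s t)) ∧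
    (∀ s, Integrable (fun t => Gk (mu α k) ‖γ s - γ t‖)) ∧
    (∀ f, BC f → BC (DD α k γ f) ∧ Integrable (DD α k γ f) ∧
      Tendsto (DD α k γ f) (cocompact ℝ) (𝓝 0) ∧
      ∀ s, AG α k γ f s = A0 α k f s + DD α k γ f s)

/-- LC10. The integral equation. -/
def S_KEY : Prop :=
  ∀ (γ : ℝ → P) (L k α : ℝ) (w : ℝ → ℝ) (f : ℝ → ℂ) (r t : ℂ), Crv γ L →
    deriv γ L ≠ -deriv γ (-L) → 0 < k → 2 * k < α → Wk α k w → BC f →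
    (((∀ s, AG α k γ f s = f s) ∧ Asy1 k f atBot 1 r ∧ Asy1 k f atTop t 0) ↔
      ((∀ s, f s = pw k s + KK α k γ w f s) ∧
        r = Complex.I / (2 * k) * ((α ^ 2 / 2 : ℝ) : ℂ) * ∫ s, pw k s * DD α k γ f s ∧
        t = 1 + Complex.I / (2 * k) * ((α ^ 2 / 2 : ℝ) : ℂ) * ∫ s, pw (-k) s * DD α k γ f s))

/-- LC11. Convergence of `K` to `K₀`. -/
def S_CONV : Prop :=
  ∀ (γ : ℝ → P) (L k : ℝ), Crv γ L → deriv γ L ≠ -deriv γ (-L) → 0 < k →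
    ∃ A C : ℝ, 2 * k < A ∧ 0 < C ∧ ∀ (α : ℝ) (w : ℝ → ℝ) (f : ℝ → ℂ) (M : ℝ), A ≤ α →
      Wk α k w → BC f → (∀ s, ‖f s‖ ≤ M) →
      BC (KK α k γ w f) ∧
      (∀ s, ‖KK α k γ w f s - K0 k (fun s => kap2 γ s / 4) f s‖ ≤ C / α * M) ∧
      (∀ p : ℝ, p = k ∨ p = -k →
        ‖((α ^ 2 / 2 : ℝ) : ℂ) * (∫ s, pw p s * DD α k γ f s) -
          ∫ s, pw p s * ((kap2 γ s / 4 : ℝ) * f s)‖ ≤ C / α * M)

/-- LC12. Invertibility of `1 - K₀`. -/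
def S_K0 : Prop :=
  ∀ (k : ℝ) (V : ℝ → ℝ), 0 < k → Continuous V → HasCompactSupport V → (∀ s, 0 ≤ V s) →
    ∃ C : ℝ, 0 < C ∧
      (∀ (F f : ℝ → ℂ) (M : ℝ), BC F → BC f → (∀ s, ‖F s‖ ≤ M) →
        (∀ s, f s = F s + K0 k V f s) → ∀ s, ‖f s‖ ≤ C * M) ∧
      ∀ F : ℝ → ℂ, BC F → ∃ f : ℝ → ℂ, BC f ∧ ∀ s, f s = F s + K0 k V f s

/-- LC13. The integral equation in one dimension. -/
def S_1DA : Prop :=
  ∀ (k : ℝ) (V : ℝ → ℝ) (f : ℝ → ℂ) (r t : ℂ), 0 < k → Continuous V → HasCompactSupport V →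
    (LeftIn1 k V f r t ↔
      (BC f ∧ (∀ s, f s = pw k s + K0 k V f s) ∧
        r = Complex.I / (2 * k) * ∫ s, pw k s * (V s * f s) ∧
        t = 1 + Complex.I / (2 * k) * ∫ s, pw (-k) s * (V s * f s)))

/-- LC14. Generalized eigenfunctions are potentials of their values on the curve. -/
def S_REPA : Prop :=
  ∀ (γ : ℝ → P) (L k α : ℝ) (ψ : P → ℂ), Crv γ L → deriv γ L ≠ -deriv γ (-L) → 0 < k →
    2 * k < α → GEF α k γ ψ →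
    ∀ x, ψ x = ∫ s, ((α * Gk (mu α k) ‖x - γ s‖ : ℝ) : ℂ) * ψ (γ s)

/-- LC15. Potentials of solutions of the equation on the curve are generalized eigenfunctions. -/
def S_REPB : Prop :=
  ∀ (γ : ℝ → P) (L k α : ℝ) (f : ℝ → ℂ), Crv γ L → deriv γ L ≠ -deriv γ (-L) → 0 < k →
    2 * k < α → BC f → (∀ s, AG α k γ f s = f s) →
    GEF α k γ (fun x => ∫ s, ((α * Gk (mu α k) ‖x - γ s‖ : ℝ) : ℂ) * f s)

/-- LC16. Asymptotics in the leads. -/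
def S_ASY2 : Prop :=
  ∀ (γ : ℝ → P) (L k α : ℝ) (f : ℝ → ℂ) (a b : ℂ), Crv γ L → deriv γ L ≠ -deriv γ (-L) →
    0 < k → 2 * k < α → BC f →
    (Asy1 k f atBot a b →
      Asy α k γ (fun x => ∫ s, ((α * Gk (mu α k) ‖x - γ s‖ : ℝ) : ℂ) * f s) atBot a b) ∧
    (Asy1 k f atTop a b →
      Asy α k γ (fun x => ∫ s, ((α * Gk (mu α k) ‖x - γ s‖ : ℝ) : ℂ) * f s) atTop a b)

/-- LC17. Reversing the curve. -/
def S_REV : Prop :=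
  (∀ (γ : ℝ → P) (L : ℝ), Crv γ L → deriv γ L ≠ -deriv γ (-L) →
    Crv (fun s => γ (-s)) L ∧
      deriv (fun s => γ (-s)) L ≠ -deriv (fun s => γ (-s)) (-L) ∧
      ∀ s, kap2 (fun s => γ (-s)) s = kap2 γ (-s)) ∧
  (∀ (α k : ℝ) (γ : ℝ → P) (ψ : P → ℂ) (r t : ℂ), Differentiable ℝ γ →
    (RightIn α k γ ψ r t ↔ LeftIn α k (fun s => γ (-s)) ψ r t)) ∧
  ∀ (k : ℝ) (V : ℝ → ℝ) (f : ℝ → ℂ) (r t : ℂ),
    (RightIn1 k V f r t ↔ LeftIn1 k (fun s => V (-s)) (fun s => f (-s)) r t)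

/-- LC19. The Green function is a fundamental solution. -/
def S_FUND : Prop :=
  ∀ μ : ℝ, 0 < μ → (∀ y : P, Integrable (fun x : P => Gk μ ‖x - y‖)) ∧
    ∀ (φ : P → ℂ) (y : P), ContDiff ℝ ∞ φ → HasCompactSupport φ →
      ∫ x, ((Gk μ ‖x - y‖ : ℝ) : ℂ) * (-(Laplacian.laplacian φ x) + (μ ^ 2 : ℝ) * φ x) = φ y

/-- LC20. Bounded solutions of `-Δw + μ² w = 0` vanish. -/
def S_UNI : Prop :=
  ∀ (μ : ℝ) (w : P → ℂ), 0 < μ → Continuous w → (∃ C : ℝ, ∀ x, ‖w x‖ ≤ C) →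
    (∀ φ : P → ℂ, ContDiff ℝ ∞ φ → HasCompactSupport φ →
      ∫ x, w x * (-(Laplacian.laplacian φ x) + (μ ^ 2 : ℝ) * φ x) = 0) → ∀ x, w x = 0

/-- the properties of `w` in terms of its Fourier transform -/
structure WF (α k : ℝ) (w : ℝ → ℝ) : Prop where
  meas : Measurable w
  int : Integrable w
  le : ∫ s, |w s| ≤ 1
  ft : ∀ p : ℝ, ∫ r, (w r : ℂ) * pw p r = ((α / (α + 2 * √(p ^ 2 + mu α k ^ 2)) : ℝ) : ℂ)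

/-- LC5. Existence of `w`. -/
def S_WA : Prop := ∀ α k : ℝ, 0 < k → 2 * k < α → ∃ w : ℝ → ℝ, WF α k w

/-- LC21. The first equation for `w`. -/
def S_WB : Prop := ∀ (α k : ℝ) (w : ℝ → ℝ), 0 < k → 2 * k < α → WF α k w →
  ∀ s : ℝ, g0 k s - (∫ r, ((α * Gk (mu α k) |s - r| : ℝ) : ℂ) * g0 k r) =
    ((4 / α ^ 2 * ∫ r, α * Gk (mu α k) |s - r| * w r : ℝ) : ℂ)

/-- LC22. The second equation for `w`. -/
def S_WC : Prop := ∀ (α k : ℝ) (w : ℝ → ℝ), 0 < k → 2 * k < α → WF α k w →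
  ∀ᵐ s : ℝ, w s + (∫ r, α * Gk (mu α k) |s - r| * w r) = α * Gk (mu α k) |s|

/-- LC18. The left half of the theorem. -/
def S_LEFT : Prop :=
  ∀ (γ : ℝ → P) (L k : ℝ), Crv γ L → deriv γ L ≠ -deriv γ (-L) → 0 < k →
    ∃ (f : ℝ → ℂ) (r₀ t₀ : ℂ) (A C : ℝ), LeftIn1 k (fun s => kap2 γ s / 4) f r₀ t₀ ∧
      (∀ f' r t, LeftIn1 k (fun s => kap2 γ s / 4) f' r t → f' = f ∧ r = r₀ ∧ t = t₀) ∧
      ∀ α, A ≤ α → ∃ (ψ : P → ℂ) (r t : ℂ), LeftIn α k γ ψ r t ∧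
        (∀ ψ' r' t', LeftIn α k γ ψ' r' t' → ψ' = ψ ∧ r' = r ∧ t' = t) ∧
        ‖r - r₀‖ ≤ C / α ∧ ‖t - t₀‖ ≤ C / α

end

end Pool.Agent.E8helper19.LC
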