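import Pool.Agent.E8helper19.LC.Stm

/-!
# Project LC: statements for the improved rate `O(α⁻²)` (MP_862eda_mp)

Nothing is proved here.
-/

set_option autoImplicit false
open MeasureTheory Filter Topology Set
open scoped ContDiff Real

namespace Pool.Agent.E8helper19.LC

noncomputable section

/-- LC23. The symmetric Taylor expansion of the chord. -/
def S_TAY2 : Prop :=
  ∀ (γ : ℝ → P) (L : ℝ), Crv γ L → ∃ C : ℝ, 0 < C ∧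
    (∀ s t, |(|s - t| - ‖γ s - γ t‖) - kap2 γ ((s + t) / 2) * |s - t| ^ 3 / 24| ≤
      C * |s - t| ^ 5) ∧
    (∀ s, kap2 γ s ≤ C) ∧
    (∀ s h, |kap2 γ (s + h) - kap2 γ s| ≤ C * |h|) ∧
    ∀ s h, |kap2 γ (s + h) + kap2 γ (s - h) - 2 * kap2 γ s| ≤ C * h ^ 2

/-- LC24. Second moments of the kernel `D`. -/
def S_D1B : Prop :=
  ∀ (γ : ℝ → P) (L k : ℝ), Crv γ L → deriv γ L ≠ -deriv γ (-L) → 0 < k →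
    ∃ A C : ℝ, 2 * k < A ∧ 0 < C ∧ ∀ α, A ≤ α →
      Integrable (fun z : ℝ × ℝ => Dk α k γ z.1 z.2 * |z.1 - z.2| ^ 2) ∧
      (∫ z : ℝ × ℝ, Dk α k γ z.1 z.2 * |z.1 - z.2| ^ 2 ≤ C / α ^ 4) ∧
      (∀ s : ℝ, ∫ z : ℝ × ℝ, (if |s - z.2| ≤ |z.1 - z.2| then
        Dk α k γ z.1 z.2 * |z.1 - z.2| else 0) ≤ C / α ^ 4)

/-- LC25. The signed first moment of the kernel `D`. -/
def S_D1C : Prop :=
  ∀ (γ : ℝ → P) (L k : ℝ), Crv γ L → deriv γ L ≠ -deriv γ (-L) → 0 < k →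
    ∃ A C : ℝ, 2 * k < A ∧ 0 < C ∧ ∀ α, A ≤ α →
      ∫ s, |∫ t, (t - s) * Dk α k γ t s| ≤ C / α ^ 4

/-- LC26. The limit of the kernel `D`, improved rate. -/
def S_D2B : Prop :=
  ∀ (γ : ℝ → P) (L k : ℝ), Crv γ L → deriv γ L ≠ -deriv γ (-L) → 0 < k →
    ∃ A C : ℝ, 2 * k < A ∧ 0 < C ∧ ∀ α, A ≤ α →
      ∫ s, |α ^ 2 / 2 * (∫ t, Dk α k γ t s) - kap2 γ s / 4| ≤ C / α ^ 2

/-- LC27. Convergence of `K` to `K₀` with rate `α⁻ᵐ`. -/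
def SCONV (m : ℕ) : Prop :=
  ∀ (γ : ℝ → P) (L k : ℝ), Crv γ L → deriv γ L ≠ -deriv γ (-L) → 0 < k →
    ∃ A C : ℝ, 2 * k < A ∧ 0 < C ∧ ∀ (α : ℝ) (w : ℝ → ℝ) (f : ℝ → ℂ) (M : ℝ), A ≤ α →
      Wk α k w → BC f → (∀ s, ‖f s‖ ≤ M) →
      BC (KK α k γ w f) ∧
      (∀ s, ‖KK α k γ w f s - K0 k (fun s => kap2 γ s / 4) f s‖ ≤ C / α ^ m * M) ∧
      (∀ p : ℝ, p = k ∨ p = -k →
        ‖((α ^ 2 / 2 : ℝ) : ℂ) * (∫ s, pw p s * DD α k γ f s) -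
          ∫ s, pw p s * ((kap2 γ s / 4 : ℝ) * f s)‖ ≤ C / α ^ m * M)

/-- LC28. The left half of the theorem with rate `α⁻ᵐ`. -/
def SLEFT (m : ℕ) : Prop :=
  ∀ (γ : ℝ → P) (L k : ℝ), Crv γ L → deriv γ L ≠ -deriv γ (-L) → 0 < k →
    ∃ (f : ℝ → ℂ) (r₀ t₀ : ℂ) (A C : ℝ), 0 < A ∧ LeftIn1 k (fun s => kap2 γ s / 4) f r₀ t₀ ∧
      (∀ f' r t, LeftIn1 k (fun s => kap2 γ s / 4) f' r t → f' = f ∧ r = r₀ ∧ t = t₀) ∧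
      ∀ α, A ≤ α → ∃ (ψ : P → ℂ) (r t : ℂ), LeftIn α k γ ψ r t ∧
        (∀ ψ' r' t', LeftIn α k γ ψ' r' t' → ψ' = ψ ∧ r' = r ∧ t' = t) ∧
        ‖r - r₀‖ ≤ C / α ^ m ∧ ‖t - t₀‖ ≤ C / α ^ m

end

end Pool.Agent.E8helper19.LC
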